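import Pool.Agent.helper86.FM.Bounds

set_option autoImplicit false

/-!
# Structures whose types are determined by dense linear orders
-/

open FirstOrder FirstOrder.Language Cardinal Filter

namespace Pool.Agent.helper86.FM

universe u v w u' v' w' w''

/-- `R` is the relation `≤` of a dense linear order without endpoints. -/
structure DenseOrder {U : Type w} (R : U → U → Prop) : Prop where
  refl : ∀ a, R a a
  trans : ∀ a b c, R a b → R b c → R a c
  antisymm : ∀ a b, R a b → R b a → a = b
  total : ∀ a b, R a b ∨ R b a
  dense : ∀ a b, ¬ R b a → ∃ c, ¬ R c a ∧ ¬ R b c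
  noMax : ∀ a, ∃ b, ¬ R b a
  noMin : ∀ a, ∃ b, ¬ R a b

section

variable {L : FirstOrder.Language.{u, v}} {U : Type w} [L.Structure U]

/-- the truth value of the relation symbol `R` at `(a, b)` -/
def Cmp (R : L.Relations 2) (a b : U) : Prop := Structure.RelMap R ![a, b]

/-- `U` as an ordered structure for the symbol `R` -/
def ordStr (R : L.Relations 2) : Language.order.Structure U where
  funMap := fun f _ => (f : Empty).elim
  RelMap := fun r x => match r, x with
    | orderRel.le, x => Structure.RelMap R x

/-- the inclusion of the language of orders in `L` given by the symbol `R` -/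
def ordHom (R : L.Relations 2) : Language.order →ᴸ L where
  onFunction := fun _ f => (f : Empty).elim
  onRelation := fun n r => match n, r with
    | _, orderRel.le => R

theorem ordHom_exp (R : L.Relations 2) :
    @LHom.IsExpansionOn _ _ (ordHom R) U (ordStr R) _ := by
  letI := ordStr (U := U) R
  refine ⟨fun f _ => (f : Empty).elim, fun {n} r x => ?_⟩
  cases r with
  | le => rfl

theorem ordStr_dich [Nonempty U] {R : L.Relations 2} (hR : DenseOrder (U := U) (Cmp R)) :
    @FSDichotomy Language.order U (ordStr R) := by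
  classical
  letI := ordStr (U := U) R
  letI lo : LinearOrder U :=
    { le := Cmp R
      le_refl := hR.refl
      le_trans := hR.trans
      le_antisymm := hR.antisymm
      le_total := hR.total
      toDecidableLE := Classical.decRel _ }
  have hlt : ∀ a b : U, a < b ↔ ¬ Cmp R b a := fun a b => by
    rw [← not_le]
    exact Iff.rfl
  haveI : DenselyOrdered U := ⟨fun a b hab => by
    obtain ⟨c, h1, h2⟩ := hR.dense a b ((hlt a b).1 hab)
    exact ⟨c, (hlt a c).2 h1, (hlt c b).2 h2⟩⟩
  haveI : NoMaxOrder U := ⟨fun a => by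
    obtain ⟨b, hb⟩ := hR.noMax a
    exact ⟨b, (hlt a b).2 hb⟩⟩
  haveI : NoMinOrder U := ⟨fun a => by
    obtain ⟨b, hb⟩ := hR.noMin a
    exact ⟨b, (hlt b a).2 hb⟩⟩
  haveI : Language.order.OrderedStructure U := ⟨fun x => by
    show Structure.RelMap R x ↔ Structure.RelMap R ![x 0, x 1]
    have : x = ![x 0, x 1] := by
      funext i
      refine Fin.cases rfl (fun k => ?_) i
      have : k = 0 := Subsingleton.elim _ _
      subst this
      rfl
    rw [← this]⟩
  exact dichotomy_order

/-- The type of an `n`-tuple `x` over a finite tuple `b` is determined by the comparisons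
`t_j(x) ≤_i t_j'(x)`, `t_j(x) ≤_i r(b)` and `r(b) ≤_i t_j(x)`, for `i` in `I`, `j` in `J` and
all `L`-terms `r`. -/
def DeterminedCmp (U : Type w) [L.Structure U] {I : Type w''} (R : I → L.Relations 2) {J : Type w'}
    {n : ℕ} (t : J → L.Term (Fin n)) : Prop :=
  ∀ (k : ℕ) (b : Fin k → U) (x x' : Fin n → U),
    (∀ (i : I) (j j' : J), (Cmp (R i) ((t j).realize x) ((t j').realize x) ↔
      Cmp (R i) ((t j).realize x') ((t j').realize x'))) →
    (∀ (i : I) (j : J) (r : L.Term (Fin k)), (Cmp (R i) ((t j).realize x) (r.realize b) ↔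
      Cmp (R i) ((t j).realize x') (r.realize b))) →
    (∀ (i : I) (j : J) (r : L.Term (Fin k)), (Cmp (R i) (r.realize b) ((t j).realize x) ↔
      Cmp (R i) (r.realize b) ((t j).realize x'))) →
    ∀ φ : L.Formula (Fin n ⊕ Fin k), φ.Realize (Sum.elim x b) ↔ φ.Realize (Sum.elim x' b)

theorem orders [Nonempty U] {I : Type w''} (R : I → L.Relations 2)
    (hR : ∀ i, DenseOrder (U := U) (Cmp (R i))) {J : Type w'} {n : ℕ} (t : J → L.Term (Fin n))
    (hdet : DeterminedCmp U R t) {M M' N N' : L.ElementarySubstructure U} (hF : Frame M M' N N')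
    (q : GType L U n) :
    ∃ f : Fibre M M' N q → (I → Set J), Function.Injective f := by
  classical
  have hcmp : ∀ (i : I) (α : Type) (x : α → U) (a b : α),
      (@Formula.Realize Language.order U (ordStr (R i)) α
        (Relations.formula₂ (leSymb : Language.order.Relations 2) (Term.var a) (Term.var b)) x ↔
          Cmp (R i) (x a) (x b)) := by
    intro i α x a b
    letI := ordStr (U := U) (R i)
    rw [Formula.realize_rel₂]
    rfl
  refine @embeds L U _ _ I (fun _ => Language.order) (fun i => ordStr (R i))
    (fun i => ordHom (R i)) (fun i => ordHom_exp (R i)) (fun i => ordStr_dich (hR i)) J n t ?_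
    M M' N N' hF q
  intro k b x x' h φ
  refine hdet k b x x' ?_ ?_ ?_ φ
  · intro i j j'
    have h1 := h i (Fin 2) (Fin 0) (Relations.formula₂ (leSymb : Language.order.Relations 2)
      (Term.var (Sum.inl 0)) (Term.var (Sum.inl 1))) ![j, j'] (fun e => e.elim0)
    rw [hcmp, hcmp] at h1
    exact h1
  · intro i j r
    have h1 := h i (Fin 1) (Fin 1) (Relations.formula₂ (leSymb : Language.order.Relations 2)
      (Term.var (Sum.inl 0)) (Term.var (Sum.inr 0))) (fun _ => j) (fun _ => r)
    rw [hcmp, hcmp] at h1
    exact h1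
  · intro i j r
    have h1 := h i (Fin 1) (Fin 1) (Relations.formula₂ (leSymb : Language.order.Relations 2)
      (Term.var (Sum.inr 0)) (Term.var (Sum.inl 0))) (fun _ => j) (fun _ => r)
    rw [hcmp, hcmp] at h1
    exact h1

end

end Pool.Agent.helper86.FM
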