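import Pool.Agent.helper86.FM.Defs

set_option autoImplicit false

/-!
# Basic facts on global types, finite satisfiability and saturation
-/

open FirstOrder FirstOrder.Language Cardinal

namespace Pool.Agent.helper86.FM

universe u v w u' v'

theorem realize_congr' {K : FirstOrder.Language.{u, v}} {V : Type w} [K.Structure V]
    {α : Type*} {φ : K.Formula α} {x y : α → V} (h : φ.Realize x) (e : ∀ i, x i = y i) :
    φ.Realize y := by
  have : x = y := funext e
  rw [← this]
  exact h

section types

variable {L : FirstOrder.Language.{u, v}} {U : Type w} [L.Structure U] {n : ℕ}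

theorem GType.mem_of_imp (p : GType L U n) {φ ψ : L.Formula (Fin n ⊕ U)} (h : p.mem φ)
    (hi : ∀ x : Fin n → U, φ.Realize (Sum.elim x id) → ψ.Realize (Sum.elim x id)) : p.mem ψ := by
  classical
  rcases p.compl ψ with h1 | h1
  · exact h1
  · obtain ⟨x, hx⟩ := p.sat {φ, ψ.not} (by
      intro θ hθ
      simp only [Finset.mem_insert, Finset.mem_singleton] at hθ
      rcases hθ with rfl | rfl
      · exact h
      · exact h1)
    have h2 := hx φ (by simp)
    have h3 := hx ψ.not (by simp)
    rw [Formula.realize_not] at h3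
    exact absurd (hi x h2) h3

theorem GType.mem_congr (p : GType L U n) {φ ψ : L.Formula (Fin n ⊕ U)}
    (hi : ∀ x : Fin n → U, φ.Realize (Sum.elim x id) ↔ ψ.Realize (Sum.elim x id)) :
    p.mem φ ↔ p.mem ψ :=
  ⟨fun h => p.mem_of_imp h fun x hx => (hi x).1 hx, fun h => p.mem_of_imp h fun x hx => (hi x).2 hx⟩

theorem GType.mem_not (p : GType L U n) {φ : L.Formula (Fin n ⊕ U)} : p.mem φ.not ↔ ¬ p.mem φ := by
  classical
  constructor
  · intro h h1
    obtain ⟨x, hx⟩ := p.sat {φ, φ.not} (by
      intro θ hθ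
      simp only [Finset.mem_insert, Finset.mem_singleton] at hθ
      rcases hθ with rfl | rfl
      · exact h1
      · exact h)
    have h2 := hx φ (by simp)
    have h3 := hx φ.not (by simp)
    rw [Formula.realize_not] at h3
    exact h3 h2
  · intro h
    exact (p.compl φ).resolve_left h

theorem GType.ext' {p p' : GType L U n} (h : ∀ φ, p.mem φ → p'.mem φ) : p = p' := by
  have : p.mem = p'.mem := by
    funext φ
    apply propext
    refine ⟨h φ, fun h' => ?_⟩
    by_contra h1
    exact (p'.mem_not.1 (h _ (p.mem_not.2 h1))) h'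
  cases p
  cases p'
  simp only at this
  subst this
  rfl

theorem realize_inst {ι κ : Type} (φ : L.Formula (ι ⊕ κ)) (b : κ → U) (x : ι → U) :
    (φ.relabel (Sum.map id b)).Realize (Sum.elim x id) ↔ φ.Realize (Sum.elim x b) := by
  rw [Formula.realize_relabel]
  have : Sum.elim x id ∘ Sum.map id b = Sum.elim x b := by
    funext i
    cases i <;> rfl
  rw [this]

theorem GType.holds_not (p : GType L U n) {κ : Type} (φ : L.Formula (Fin n ⊕ κ)) (b : κ → U) :
    p.Holds φ.not b ↔ ¬ p.Holds φ b := by
  unfold GType.Holds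
  rw [← p.mem_not]
  refine p.mem_congr fun x => ?_
  rw [realize_inst, Formula.realize_not, Formula.realize_not, realize_inst]

/-- every formula with parameters is an instance of a formula with finitely many parameters -/
theorem fin_support {W : Type w} (φ : L.Formula (Fin n ⊕ W)) :
    ∃ (k : ℕ) (b : Fin k → W) (ψ : L.Formula (Fin n ⊕ Fin k)),
      ∀ v : Fin n ⊕ W → U, ψ.Realize (v ∘ Sum.map id b) ↔ φ.Realize v := by
  classical
  let s : Finset W := (BoundedFormula.freeVarFinset φ).biUnion fun z => match z with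
    | Sum.inl _ => ∅
    | Sum.inr a => {a}
  have hs : ∀ a : W, Sum.inr a ∈ BoundedFormula.freeVarFinset φ → a ∈ s := by
    intro a ha
    simp only [s, Finset.mem_biUnion]
    exact ⟨Sum.inr a, ha, by simp⟩
  let f : BoundedFormula.freeVarFinset φ → Fin n ⊕ Fin s.card := fun z => match z with
    | ⟨Sum.inl i, _⟩ => Sum.inl i
    | ⟨Sum.inr a, h⟩ => Sum.inr (s.equivFin ⟨a, hs a h⟩)
  refine ⟨s.card, fun i => (s.equivFin.symm i : W), BoundedFormula.restrictFreeVar φ f, fun v => ?_⟩
  refine BoundedFormula.realize_restrictFreeVar v ?_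
  rintro ⟨z, hz⟩
  cases z with
  | inl i => rfl
  | inr a => simp [f]

end types

section elementary

variable {L : FirstOrder.Language.{u, v}} {U : Type w} [L.Structure U]

theorem realize_sub (N : L.ElementarySubstructure U) {α : Type*} (φ : L.Formula α) (x : α → N) :
    φ.Realize (fun i => (x i : U)) ↔ φ.Realize x :=
  N.subtype.map_formula φ x

/-- an elementary substructure contains solutions of formulas over it -/
theorem exists_in (N : L.ElementarySubstructure U) {ι : Type} [Finite ι] {κ : Type*}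
    (φ : L.Formula (ι ⊕ κ)) (a : κ → U) (ha : ∀ j, a j ∈ N) (y : ι → U)
    (h : φ.Realize (Sum.elim y a)) :
    ∃ y' : ι → U, (∀ i, y' i ∈ N) ∧ φ.Realize (Sum.elim y' a) := by
  let φ' : L.Formula (κ ⊕ ι) := φ.relabel Sum.swap
  let a' : κ → N := fun j => ⟨a j, ha j⟩
  have h1 : (φ'.iExs ι).Realize (fun j => (a' j : U)) := by
    rw [Formula.realize_iExs]
    refine ⟨y, ?_⟩
    rw [Formula.realize_relabel]
    have : Sum.elim (fun j => (a' j : U)) y ∘ Sum.swap = Sum.elim y a := by
      funext i
      cases i <;> rfl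
    rw [this]
    exact h
  rw [realize_sub, Formula.realize_iExs] at h1
  obtain ⟨z, hz⟩ := h1
  refine ⟨fun i => z i, fun i => (z i).2, ?_⟩
  rw [← realize_sub, Formula.realize_relabel] at hz
  have : (fun i => ((Sum.elim a' z i : N) : U)) ∘ Sum.swap = Sum.elim (fun i => (z i : U)) a := by
    funext i
    cases i <;> rfl
  rw [this] at hz
  exact hz

theorem SameType.realize {M : L.ElementarySubstructure U} {κ : Type} {b b' : κ → U}
    (h : SameType M b b') {ν : Type} [Finite ν] (ψ : L.Formula (κ ⊕ ν)) {m : ν → U}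
    (hm : ∀ i, m i ∈ M) : ψ.Realize (Sum.elim b m) ↔ ψ.Realize (Sum.elim b' m) :=
  h ν ψ m hm

theorem SameType.symm {M : L.ElementarySubstructure U} {κ : Type} {b b' : κ → U}
    (h : SameType M b b') : SameType M b' b := fun ν _ ψ m hm => (h ν ψ m hm).symm

theorem SameType.trans {M : L.ElementarySubstructure U} {κ : Type} {b b' b'' : κ → U}
    (h : SameType M b b') (h' : SameType M b' b'') : SameType M b b'' :=
  fun ν _ ψ m hm => (h ν ψ m hm).trans (h' ν ψ m hm)

theorem SameType.comp {M : L.ElementarySubstructure U} {κ κ' : Type} {b b' : κ → U}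
    (h : SameType M b b') (σ : κ' → κ) : SameType M (b ∘ σ) (b' ∘ σ) := by
  intro ν _ ψ m hm
  have h1 := h ν (ψ.relabel (Sum.map σ id)) m hm
  rw [Formula.realize_relabel, Formula.realize_relabel] at h1
  have e : ∀ c : κ → U, Sum.elim c m ∘ Sum.map σ id = Sum.elim (c ∘ σ) m := by
    intro c
    funext i
    cases i <;> rfl
  rw [e, e] at h1
  exact h1

/-- parameters from `M` may be added -/
theorem SameType.add {M : L.ElementarySubstructure U} {κ ν : Type} [Finite ν] {b b' : κ → U}
    (h : SameType M b b') {m : ν → U} (hm : ∀ i, m i ∈ M) :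
    SameType M (Sum.elim b m) (Sum.elim b' m) := by
  intro ν' _ ψ m' hm'
  have h1 := h (ν ⊕ ν') (ψ.relabel (fun z => match z with
    | Sum.inl (Sum.inl i) => Sum.inl i
    | Sum.inl (Sum.inr i) => Sum.inr (Sum.inl i)
    | Sum.inr i => Sum.inr (Sum.inr i))) (Sum.elim m m') (by
      rintro (i | i)
      · exact hm i
      · exact hm' i)
  rw [Formula.realize_relabel, Formula.realize_relabel] at h1
  have e : ∀ c : κ → U, (Sum.elim c (Sum.elim m m') ∘ (fun z : (κ ⊕ ν) ⊕ ν' => match z with
    | Sum.inl (Sum.inl i) => (Sum.inl i : κ ⊕ (ν ⊕ ν'))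
    | Sum.inl (Sum.inr i) => Sum.inr (Sum.inl i)
    | Sum.inr i => Sum.inr (Sum.inr i))) = Sum.elim (Sum.elim c m) m' := by
    intro c
    funext i
    rcases i with (i | i) | i <;> rfl
  rw [e, e] at h1
  exact h1

end elementary

section fs

variable {K : FirstOrder.Language.{u, v}} {U : Type w} [K.Structure U]

theorem FS.mono {M B B' A A' : Set U} (h : FS K M B A) (hB : B' ⊆ B) (hA : A' ⊆ A) :
    FS K M B' A' :=
  fun ι κ _ _ φ b a hb ha hr => h ι κ φ b a (fun i => hB (hb i)) (fun j => hA (ha j)) hr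

/-- the dichotomy over arbitrary sets `A` containing `M` -/
theorem dich_any (hD : FSDichotomy K U) (M : K.ElementarySubstructure U) {A B : Set U}
    (hMA : (M : Set U) ⊆ A) (hB : B.Finite) (c : U) (h : FS K (M : Set U) B A) :
    FS K (M : Set U) B (A ∪ {c}) ∨ FS K (M : Set U) (B ∪ {c}) A := by
  by_contra hcon
  push Not at hcon
  obtain ⟨h1, h2⟩ := hcon
  unfold FS at h1 h2
  push Not at h1 h2
  obtain ⟨ι1, κ1, f1, g1, φ1, b1, a1, hb1, ha1, hr1, hn1⟩ := h1
  obtain ⟨ι2, κ2, f2, g2, φ2, b2, a2, hb2, ha2, hr2, hn2⟩ := h2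
  let A0 : Set U := (Set.range a1 ∪ Set.range a2) ∩ A
  have hA0 : A0.Finite := (((Set.finite_range a1).union (Set.finite_range a2))).inter_of_left A
  have h3 : FS K (M : Set U) B (M ∪ A0) :=
    h.mono subset_rfl (Set.union_subset hMA Set.inter_subset_right)
  rcases hD M A0 B hA0 hB c h3 with h4 | h4
  · obtain ⟨m, hm, hm'⟩ := h4 ι1 κ1 φ1 b1 a1 hb1 (fun j => by
      rcases ha1 j with h5 | h5
      · exact Or.inl (Or.inr ⟨Or.inl ⟨j, rfl⟩, h5⟩)
      · exact Or.inr h5) hr1
    exact hn1 m hm hm'
  · obtain ⟨m, hm, hm'⟩ := h4 ι2 κ2 φ2 b2 a2 hb2 (fun j => by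
      exact Or.inr ⟨Or.inr ⟨j, rfl⟩, ha2 j⟩) hr2
    exact hn2 m hm hm'

/-- distribute finitely many elements -/
theorem distribute (hD : FSDichotomy K U) (M : K.ElementarySubstructure U) {J : Type*}
    (y : J → U) {A B : Set U} (hMA : (M : Set U) ⊆ A) (hB : B.Finite)
    (h : FS K (M : Set U) B A) (F : Finset J) :
    ∃ S : Set J, FS K (M : Set U) (B ∪ y '' {j | j ∈ F ∧ j ∈ S}) (A ∪ y '' {j | j ∈ F ∧ j ∉ S}) := by
  classical
  induction F using Finset.induction_on with
  | empty => exact ⟨∅, h.mono (by simp) (by simp)⟩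
  | insert i F hi ih =>
    obtain ⟨S, hS⟩ := ih
    have hfin : (B ∪ y '' {j | j ∈ F ∧ j ∈ S}).Finite := by
      refine hB.union (Set.Finite.image _ ?_)
      exact F.finite_toSet.subset fun j hj => hj.1
    rcases dich_any hD M (hMA.trans Set.subset_union_left) hfin (y i) hS with h1 | h1
    · refine ⟨S \ {i}, h1.mono ?_ ?_⟩
      · refine Set.union_subset_union_right _ (Set.image_mono ?_)
        rintro j ⟨hj, hjS, hji⟩
        refine ⟨?_, hjS⟩
        rcases Finset.mem_insert.1 hj with rfl | h2
        · exact absurd rfl hji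
        · exact h2
      · rintro z (hz | ⟨j, ⟨hj, hjS⟩, rfl⟩)
        · exact Or.inl (Or.inl hz)
        · rcases Finset.mem_insert.1 hj with rfl | h2
          · exact Or.inr rfl
          · by_cases hji : j = i
            · subst hji
              exact Or.inr rfl
            · refine Or.inl (Or.inr ⟨j, ⟨h2, fun hjS' => hjS ⟨hjS', hji⟩⟩, rfl⟩)
    · refine ⟨S ∪ {i}, h1.mono ?_ ?_⟩
      · rintro z (hz | ⟨j, ⟨hj, hjS⟩, rfl⟩)
        · exact Or.inl (Or.inl hz)
        · by_cases hji : j = i
          · subst hji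
            exact Or.inr rfl
          · rcases hjS with hjS | hjS
            · refine Or.inl (Or.inr ⟨j, ⟨?_, hjS⟩, rfl⟩)
              exact (Finset.mem_insert.1 hj).resolve_left hji
            · exact absurd hjS hji
      · refine Set.union_subset_union_right _ (Set.image_mono ?_)
        rintro j ⟨hj, hjS⟩
        refine ⟨?_, fun h2 => hjS (Or.inl h2)⟩
        rcases Finset.mem_insert.1 hj with rfl | h2
        · exact absurd (Or.inr rfl) hjS
        · exact h2

end fs

end Pool.Agent.helper86.FM
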