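import Pool.Agent.helper86.FM.Order

set_option autoImplicit false

/-!
# Bounds for the fibres of `F_M`
-/

open FirstOrder FirstOrder.Language Cardinal Filter

namespace Pool.Agent.helper86.FM

universe u v w u' v' w' w''

variable {L : FirstOrder.Language.{u, v}} {U : Type w} [L.Structure U]

/-- The fibre of `F_M` over `q`. -/
def Fibre (M M' N : L.ElementarySubstructure U) {n : ℕ} (q : GType L U n) : Type (max u v w) :=
  {p : GType L U n // IsInvariant M p ∧ IsImage M M' N p q}

theorem card_terms (L : FirstOrder.Language.{u, v}) (n : ℕ) :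
    Cardinal.lift.{v} #(L.Term (Fin n)) ≤ max ℵ₀ L.card := by
  have h1 : #(L.Term (Fin n)) ≤ max ℵ₀ #((Fin n) ⊕ (Σ i, L.Functions i)) := Term.card_le
  have h2 : Cardinal.lift.{v} #(L.Term (Fin n)) ≤
      Cardinal.lift.{v} (max ℵ₀ #((Fin n) ⊕ (Σ i, L.Functions i))) := Cardinal.lift_le.2 h1
  refine h2.trans ?_
  rw [Cardinal.lift_max, Cardinal.lift_aleph0]
  refine max_le (le_max_left _ _) ?_
  rw [Cardinal.mk_sum, Cardinal.lift_add]
  refine Cardinal.add_le_of_le (le_max_left _ _) ?_ ?_
  · refine le_trans ?_ (le_max_left _ _)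
    simp only [Cardinal.mk_fin, Cardinal.lift_natCast]
    exact (Cardinal.nat_lt_aleph0 n).le
  · refine le_trans ?_ (le_max_right _ _)
    unfold Language.card Language.Symbols
    rw [Cardinal.mk_sum]
    simp only [Cardinal.lift_lift, Cardinal.lift_uzero]
    exact le_self_add

theorem bound [Nonempty U] {I : Type w''} (K : I → FirstOrder.Language.{u', v'})
    [∀ i, (K i).Structure U] (F : ∀ i, K i →ᴸ L) [∀ i, (F i).IsExpansionOn U]
    (hD : ∀ i, FSDichotomy (K i) U) {n : ℕ}
    (hdet : Determined (U := U) K (fun t : L.Term (Fin n) => t))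
    (hI : Cardinal.lift.{max u v} #I ≤ Cardinal.lift.{w''} (max ℵ₀ L.card))
    {M M' N N' : L.ElementarySubstructure U} (hF : Frame M M' N N') (q : GType L U n) :
    #(Fibre M M' N q) ≤ Cardinal.lift.{w} (2 ^ max ℵ₀ L.card) := by
  obtain ⟨f, hf⟩ := embeds K F hD (fun t : L.Term (Fin n) => t) hdet hF q
  have h1 : Cardinal.lift.{max u w''} #(Fibre M M' N q) ≤
      Cardinal.lift.{max u v w} #(I → Set (L.Term (Fin n))) :=
    Cardinal.lift_mk_le_lift_mk_of_injective hf
  have h2 : Cardinal.lift.{v} #(I → Set (L.Term (Fin n))) ≤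
      Cardinal.lift.{w''} (2 ^ max ℵ₀ L.card) := by
    rw [Cardinal.mk_pi, Cardinal.prod_const, Cardinal.mk_set, Cardinal.lift_power,
      Cardinal.lift_power, Cardinal.lift_power, ← Cardinal.power_mul]
    simp only [Cardinal.lift_lift, Cardinal.lift_ofNat]
    rw [Cardinal.lift_power]
    simp only [Cardinal.lift_ofNat]
    refine Cardinal.power_le_power_left two_ne_zero ?_
    have h3 : Cardinal.lift.{max w'' v} #(L.Term (Fin n)) ≤
        Cardinal.lift.{w''} (max ℵ₀ L.card) := by
      rw [← Cardinal.lift_lift.{v, w''}]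
      exact Cardinal.lift_le.2 (card_terms L n)
    refine (mul_le_mul' h3 hI).trans ?_
    rw [Cardinal.mul_eq_self]
    rw [Cardinal.lift_max, Cardinal.lift_aleph0]
    exact le_max_left _ _
  have e1 : Cardinal.lift.{max u w''} #(Fibre M M' N q) =
      Cardinal.lift.{w''} #(Fibre M M' N q) :=
    Cardinal.mk_congr (Equiv.ulift.{max u w''}.trans Equiv.ulift.{w''}.symm)
  have e2 : Cardinal.lift.{max u v w} #(I → Set (L.Term (Fin n))) =
      Cardinal.lift.{w} (Cardinal.lift.{v} #(I → Set (L.Term (Fin n)))) := by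
    rw [Cardinal.lift_lift]
    exact Cardinal.mk_congr (Equiv.ulift.{max u v w}.trans Equiv.ulift.{max v w}.symm)
  rw [e1, e2] at h1
  rw [← Cardinal.lift_le.{w''}]
  refine h1.trans ((Cardinal.lift_le.{w}.2 h2).trans (le_of_eq ?_))
  rw [Cardinal.lift_lift, Cardinal.lift_lift]

/-- the case where `L` itself satisfies the dichotomy -/
theorem determined_var (n : ℕ) : Determined (L := L) (U := U) (fun _ : Unit => L)
    (fun i : Fin n => (Term.var i : L.Term (Fin n))) := by
  intro k b x x' h φ
  exact h () (Fin n) (Fin k) φ id Term.var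

theorem bound_mon [Nonempty U] (hD : FSDichotomy L U) {n : ℕ}
    {M M' N N' : L.ElementarySubstructure U} (hF : Frame M M' N N') (q : GType L U n) :
    Finite (Fibre M M' N q) ∧ Nat.card (Fibre M M' N q) ≤ 2 ^ n := by
  obtain ⟨f, hf⟩ := embeds (L := L) (U := U) (fun _ : Unit => L) (fun _ => LHom.id L)
    (fun _ => hD) (fun i : Fin n => (Term.var i : L.Term (Fin n))) (determined_var n) hF q
  have hfin : Finite (Fibre M M' N q) := Finite.of_injective f hf
  refine ⟨hfin, ?_⟩
  refine (Nat.card_le_card_of_injective f hf).trans (le_of_eq ?_)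
  simp

end Pool.Agent.helper86.FM
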