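import Pool.Agent.helper86.FM.Basic

set_option autoImplicit false

/-!
# A coherent system of coheirs, and its realizations in `N`
-/

open FirstOrder FirstOrder.Language Cardinal Filter

namespace Pool.Agent.helper86.FM

universe u v w u' v'

variable {L : FirstOrder.Language.{u, v}} {U : Type w} [L.Structure U]

/-- the sets used for the ultrafilter -/
def Base (M : L.ElementarySubstructure U) : Set (Set (U → M)) :=
  {A | ∃ (κ ν : Type) (_ : Finite κ) (_ : Finite ν) (θ : L.Formula (κ ⊕ ν)) (b : κ → U) (m : ν → U),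
    (∀ i, m i ∈ M) ∧ θ.Realize (Sum.elim b m) ∧
      {g : U → M | θ.Realize (Sum.elim (fun i => (g (b i) : U)) m)} ⊆ A}

theorem base_inter {M : L.ElementarySubstructure U} {A B : Set (U → M)} (hA : A ∈ Base M)
    (hB : B ∈ Base M) : A ∩ B ∈ Base M := by
  obtain ⟨κ, ν, f1, f2, θ, b, m, hm, hr, hs⟩ := hA
  obtain ⟨κ', ν', f3, f4, θ', b', m', hm', hr', hs'⟩ := hB
  refine ⟨κ ⊕ κ', ν ⊕ ν', inferInstance, inferInstance,
    θ.relabel (Sum.map Sum.inl Sum.inl) ⊓ θ'.relabel (Sum.map Sum.inr Sum.inr),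
    Sum.elim b b', Sum.elim m m', ?_, ?_, ?_⟩
  · rintro (i | i)
    · exact hm i
    · exact hm' i
  · rw [Formula.realize_inf, Formula.realize_relabel, Formula.realize_relabel]
    have e1 : Sum.elim (Sum.elim b b') (Sum.elim m m') ∘ Sum.map Sum.inl Sum.inl =
        Sum.elim b m := by
      funext i
      cases i <;> rfl
    have e2 : Sum.elim (Sum.elim b b') (Sum.elim m m') ∘ Sum.map Sum.inr Sum.inr =
        Sum.elim b' m' := by
      funext i
      cases i <;> rfl
    rw [e1, e2]
    exact ⟨hr, hr'⟩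
  · intro g hg
    rw [Set.mem_setOf_eq, Formula.realize_inf, Formula.realize_relabel,
      Formula.realize_relabel] at hg
    have e1 : Sum.elim (fun i => (g (Sum.elim b b' i) : U)) (Sum.elim m m') ∘
        Sum.map Sum.inl Sum.inl = Sum.elim (fun i => (g (b i) : U)) m := by
      funext i
      cases i <;> rfl
    have e2 : Sum.elim (fun i => (g (Sum.elim b b' i) : U)) (Sum.elim m m') ∘
        Sum.map Sum.inr Sum.inr = Sum.elim (fun i => (g (b' i) : U)) m' := by
      funext i
      cases i <;> rfl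
    rw [e1, e2] at hg
    exact ⟨hs hg.1, hs' hg.2⟩

theorem base_nonempty [Nonempty U] {M : L.ElementarySubstructure U} {A : Set (U → M)}
    (hA : A ∈ Base M) : A.Nonempty := by
  classical
  obtain ⟨κ, ν, f1, f2, θ, b, m, hm, hr, hs⟩ := hA
  let E : {p : κ × κ // b p.1 = b p.2} → L.Formula (κ ⊕ ν) := fun p =>
    (Term.var (Sum.inl p.1.1)).equal (Term.var (Sum.inl p.1.2))
  obtain ⟨y, hy, hy'⟩ := exists_in M (θ ⊓ Formula.iInf E) m hm b (by
    rw [Formula.realize_inf, Formula.realize_iInf]
    refine ⟨hr, fun p => ?_⟩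
    rw [Formula.realize_equal]
    exact p.2)
  rw [Formula.realize_inf, Formula.realize_iInf] at hy'
  have hyb : ∀ i j : κ, b i = b j → y i = y j := by
    intro i j hij
    have h1 := hy'.2 ⟨(i, j), hij⟩
    rw [Formula.realize_equal] at h1
    exact h1
  let g : U → M := fun z => if h : ∃ i, b i = z then ⟨y h.choose, hy _⟩ else Classical.arbitrary M
  refine ⟨g, hs ?_⟩
  have hg : (fun i => (g (b i) : U)) = y := by
    funext i
    have h : ∃ j, b j = b i := ⟨i, rfl⟩
    have h1 : g (b i) = ⟨y h.choose, hy _⟩ := dif_pos h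
    rw [h1]
    exact hyb _ _ h.choose_spec
  rw [Set.mem_setOf_eq, hg]
  exact hy'.1

theorem exists_D [Nonempty U] (M : L.ElementarySubstructure U) :
    ∃ D : Ultrafilter (U → M), ∀ (κ ν : Type) [Finite κ] [Finite ν] (θ : L.Formula (κ ⊕ ν))
      (b : κ → U) (m : ν → U), (∀ i, m i ∈ M) → θ.Realize (Sum.elim b m) →
      ∀ᶠ g in (D : Filter (U → M)), θ.Realize (Sum.elim (fun i => (g (b i) : U)) m) := by
  classical
  obtain ⟨D, hD⟩ := Ultrafilter.exists_ultrafilter_of_finite_inter_nonempty (Base M) (by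
    intro T hT
    apply base_nonempty
    clear * - hT
    induction T using Finset.induction_on with
    | empty =>
      refine ⟨Empty, Empty, inferInstance, inferInstance, ⊤, fun i => i.elim, fun i => i.elim,
        fun i => i.elim, ?_, ?_⟩
      · exact Formula.realize_top.2 trivial
      · simp
    | insert A T hA ih =>
      rw [Finset.coe_insert, Set.sInter_insert]
      rw [Finset.coe_insert, Set.insert_subset_iff] at hT
      exact base_inter hT.1 (ih hT.2))
  refine ⟨D, fun κ ν _ _ θ b m hm hr => hD ?_⟩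
  exact ⟨κ, ν, inferInstance, inferInstance, θ, b, m, hm, hr, subset_rfl⟩

/-- the atomic formula `P(y_i)` -/
def atomP (L : FirstOrder.Language.{u, v}) {α : Type w} (i : α) : (L.sum PredLang).Formula α :=
  Relations.formula₁ (Sum.inr PredRel.P : (L.sum PredLang).Relations 1) (Term.var i)

theorem realize_atomP (N' N : L.ElementarySubstructure U) {α : Type*} (i : α) (x : α → N') :
    @Formula.Realize (L.sum PredLang) N' (pair N' N) _ (atomP L i) x ↔ ((x i : N') : U) ∈ N := by
  letI := pair N' N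
  unfold atomP
  rw [Formula.realize_rel₁]
  rfl

theorem realize_inl (N' N : L.ElementarySubstructure U) {α : Type*} (φ : L.Formula α)
    (x : α → N') :
    @Formula.Realize (L.sum PredLang) N' (pair N' N) _ (LHom.sumInl.onFormula φ) x ↔
      φ.Realize (fun i => (x i : U)) := by
  letI := pair N' N
  haveI : (LHom.sumInl : L →ᴸ L.sum PredLang).IsExpansionOn N' :=
    ⟨fun _ _ => rfl, fun _ _ => rfl⟩
  rw [LHom.realize_onFormula, realize_sub]

theorem coheir_real {M M' N N' : L.ElementarySubstructure U} (hF : Frame M M' N N')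
    (D : Ultrafilter (U → M)) {κ : Type} [Finite κ] (b : κ → U) (A : Set U)
    (hA : A ⊆ N') (hc : #A ≤ max ℵ₀ #M') :
    ∃ y : κ → U, (∀ i, y i ∈ N) ∧ ∀ (ν : Type) [Finite ν] (ψ : L.Formula (κ ⊕ ν)) (a : ν → U),
      (∀ j, a j ∈ A) → (ψ.Realize (Sum.elim y a) ↔
        ∀ᶠ g in (D : Filter (U → M)), ψ.Realize (Sum.elim (fun i => (g (b i) : U)) a)) := by
  classical
  let A' : Set N' := {z | (z : U) ∈ A}
  have hcard : #A' ≤ max ℵ₀ #M' := by
    refine le_trans ?_ hc
    refine Cardinal.mk_le_of_injective (f := fun z : A' => (⟨((z : N') : U), z.2⟩ : A)) ?_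
    intro z z' h
    have h' : ((z : N') : U) = ((z' : N') : U) := congrArg (fun t : A => (t : U)) h
    exact Subtype.ext (Subtype.ext h')
  let Γ : Set ((L.sum PredLang).Formula (κ ⊕ A')) := {φ |
    (∃ ψ : L.Formula (κ ⊕ A'), φ = LHom.sumInl.onFormula ψ ∧
      ∀ᶠ g in (D : Filter (U → M)),
        ψ.Realize (Sum.elim (fun i => (g (b i) : U)) (fun a => ((a : N') : U)))) ∨
    ∃ i : κ, φ = atomP L (Sum.inl i)}
  obtain ⟨y, hy⟩ := hF.sat2 A' hcard κ Γ (by
    intro s hs
    have h1 : ∀ φ ∈ s, ∀ᶠ g in (D : Filter (U → M)),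
        @Formula.Realize (L.sum PredLang) N' (pair N' N) _ φ
          (Sum.elim (fun i => (⟨(g (b i) : U), hF.le2 (hF.le1 (g (b i)).2)⟩ : N'))
            (fun a => (a : N'))) := by
      intro φ hφ
      rcases hs hφ with ⟨ψ, rfl, hψ⟩ | ⟨i, rfl⟩
      · filter_upwards [hψ] with g hg
        rw [realize_inl]
        exact realize_congr' hg (by rintro (i | i) <;> rfl)
      · refine Eventually.of_forall fun g => ?_
        rw [realize_atomP]
        exact hF.le4 (g (b i)).2
    obtain ⟨g, hg⟩ := ((Filter.eventually_all_finset s).2 h1).exists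
    exact ⟨_, hg⟩)
  refine ⟨fun i => (y i : U), fun i => ?_, ?_⟩
  · have h2 := hy (atomP L (Sum.inl i)) (Or.inr ⟨i, rfl⟩)
    rw [realize_atomP] at h2
    exact h2
  · have main : ∀ (ν : Type) [Finite ν] (ψ : L.Formula (κ ⊕ ν)) (a : ν → U), (∀ j, a j ∈ A) →
        (∀ᶠ g in (D : Filter (U → M)), ψ.Realize (Sum.elim (fun i => (g (b i) : U)) a)) →
        ψ.Realize (Sum.elim (fun i => (y i : U)) a) := by
      intro ν _ ψ a ha hev
      let a' : ν → A' := fun j => ⟨⟨a j, hA (ha j)⟩, ha j⟩
      have h2 := hy (LHom.sumInl.onFormula (ψ.relabel (Sum.map id a'))) (Or.inl ⟨_, rfl, by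
        filter_upwards [hev] with g hg
        rw [Formula.realize_relabel]
        exact realize_congr' hg (by rintro (i | i) <;> rfl)⟩)
      rw [realize_inl, Formula.realize_relabel] at h2
      exact realize_congr' h2 (by rintro (i | i) <;> rfl)
    intro ν _ ψ a ha
    refine ⟨fun h => ?_, main ν ψ a ha⟩
    by_contra hne
    rw [← Ultrafilter.eventually_not] at hne
    have h3 := main ν ψ.not a ha (by
      filter_upwards [hne] with g hg
      rw [Formula.realize_not]
      exact hg)
    rw [Formula.realize_not] at h3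
    exact h3 h

end Pool.Agent.helper86.FM
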