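import Mathlib

set_option autoImplicit false

/-!
# The map `F_M` of Simon (MP_669a53_lc)

Global types over a monster model, invariant types, types finitely satisfiable in `M`, the pairs
`(M', M)`, `(N', N)`, the relation `F_M(p) = q`, and the f.s. dichotomy.
-/

open FirstOrder FirstOrder.Language Cardinal

namespace Pool.Agent.helper86.FM

universe u v w

/-- A complete `n`-type over the structure `U`: a complete finitely satisfiable set of formulas in the
variables `x_0, .., x_(n-1)` with parameters from `U`. -/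
structure GType (L : FirstOrder.Language.{u, v}) (U : Type w) [L.Structure U] (n : ℕ) where
  mem : L.Formula (Fin n ⊕ U) → Prop
  sat : ∀ s : Finset (L.Formula (Fin n ⊕ U)), (∀ φ ∈ s, mem φ) →
    ∃ x : Fin n → U, ∀ φ ∈ s, φ.Realize (Sum.elim x id)
  compl : ∀ φ : L.Formula (Fin n ⊕ U), mem φ ∨ mem φ.not

section

variable {L : FirstOrder.Language.{u, v}} {U : Type w} [L.Structure U]

/-- The formula `φ(x; b)` belongs to `p`. -/
def GType.Holds {n : ℕ} (p : GType L U n) {κ : Type} (φ : L.Formula (Fin n ⊕ κ)) (b : κ → U) : Prop :=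
  p.mem (φ.relabel (Sum.map id b))

/-- The tuples `b` and `b'` have the same type over `M`. -/
def SameType (M : L.ElementarySubstructure U) {κ : Type} (b b' : κ → U) : Prop :=
  ∀ (ν : Type) [Finite ν] (ψ : L.Formula (κ ⊕ ν)) (m : ν → U), (∀ i, m i ∈ M) →
    (ψ.Realize (Sum.elim b m) ↔ ψ.Realize (Sum.elim b' m))

/-- `p` is `M`-invariant: whether `φ(x; b) ∈ p` depends only on the type of `b` over `M`. -/
def IsInvariant (M : L.ElementarySubstructure U) {n : ℕ} (p : GType L U n) : Prop :=
  ∀ (κ : Type) [Finite κ] (φ : L.Formula (Fin n ⊕ κ)) (b b' : κ → U), SameType M b b' →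
    (p.Holds φ b ↔ p.Holds φ b')

/-- `p` is finitely satisfiable in `M`. -/
def IsFinSat (M : L.ElementarySubstructure U) {n : ℕ} (p : GType L U n) : Prop :=
  ∀ φ : L.Formula (Fin n ⊕ U), p.mem φ →
    ∃ x : Fin n → U, (∀ i, x i ∈ M) ∧ φ.Realize (Sum.elim x id)

end

/-- The structure `V` is `c⁺`-saturated: every finitely satisfiable set of formulas in finitely many
variables, with parameters in a set of cardinality at most `c`, is realized. -/
def Saturated (K : FirstOrder.Language.{u, v}) (V : Type w) [K.Structure V] (c : Cardinal.{w}) : Prop :=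
  ∀ A : Set V, #A ≤ c → ∀ (ι : Type) [Finite ι] (Γ : Set (K.Formula (ι ⊕ A))),
    (∀ s : Finset (K.Formula (ι ⊕ A)), ↑s ⊆ Γ →
      ∃ y : ι → V, ∀ φ ∈ s, φ.Realize (Sum.elim y (fun a => (a : V)))) →
    ∃ y : ι → V, ∀ φ ∈ Γ, φ.Realize (Sum.elim y (fun a => (a : V)))

/-- The symbol `P`. -/
inductive PredRel : ℕ → Type
  | P : PredRel 1

/-- The language with one unary predicate `P`. -/
def PredLang : FirstOrder.Language.{0, 0} := ⟨fun _ => Empty, PredRel⟩

/-- `V` as a structure for `P`, interpreted as the set `S`. -/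
def predStructure {V : Type w} (S : Set V) : PredLang.Structure V where
  funMap := fun f _ => f.elim
  RelMap := fun r x => match r, x with
    | PredRel.P, x => x 0 ∈ S

/-- `V` as a structure for `L_P = L ∪ {P}`. -/
def pairStructure (L : FirstOrder.Language.{u, v}) (V : Type w) [L.Structure V] (S : Set V) :
    (L.sum PredLang).Structure V :=
  letI := predStructure S
  inferInstance

section

variable {L : FirstOrder.Language.{u, v}} {U : Type w} [L.Structure U]

/-- The substructure `N'` with the predicate `P` for the elements of `N`. -/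
def pair (N' N : L.ElementarySubstructure U) : (L.sum PredLang).Structure N' :=
  pairStructure L N' {y | (y : U) ∈ N}

/-- The data used to define `F_M`, inside the monster model `U`: `M ≺⁺ M'`, and `(N', N)` is a
`|M'|⁺`-saturated elementary extension of `(M', M)`; `U` is `|N'|⁺`-saturated. -/
structure Frame (M M' N N' : L.ElementarySubstructure U) : Prop where
  le1 : M ≤ M'
  le2 : M' ≤ N'
  le3 : N ≤ N'
  le4 : M ≤ N
  sat1 : Saturated L M' (max ℵ₀ #M)
  elem : ∀ (k : ℕ) (θ : (L.sum PredLang).Formula (Fin k)) (c : Fin k → M'),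
    @Formula.Realize (L.sum PredLang) M' (pair M' M) _ θ c ↔
      @Formula.Realize (L.sum PredLang) N' (pair N' N) _ θ (fun i => ⟨c i, le2 (c i).2⟩)
  sat2 : @Saturated (L.sum PredLang) N' (pair N' N) (max ℵ₀ #M')
  sat3 : Saturated L U (max ℵ₀ #N')

/-- `F_M(p) = q`, computed with `(N', N)`: `q` is finitely satisfiable in `M`, and
`p|N ∪ {P(x)}` implies `q|M'`, i.e. for each formula `ψ ∈ q` over `M'` there is a formula `χ ∈ p` over
`N` such that in `(N', N)` all `x` in `P` with `χ(x)` satisfy `ψ(x)`. -/
def IsImage (M M' N : L.ElementarySubstructure U) {n : ℕ} (p q : GType L U n) : Prop :=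
  IsFinSat M q ∧
    ∀ ψ : L.Formula (Fin n ⊕ M'), q.mem (ψ.relabel (Sum.map id (fun c : M' => (c : U)))) →
      ∃ χ : L.Formula (Fin n ⊕ N), p.mem (χ.relabel (Sum.map id (fun c : N => (c : U)))) ∧
        ∀ x : Fin n → U, (∀ i, x i ∈ N) → χ.Realize (Sum.elim x (fun c => (c : U))) →
          ψ.Realize (Sum.elim x (fun c => (c : U)))

end

/-- `tp(B/A)` is finitely satisfiable in `M`. -/
def FS (K : FirstOrder.Language.{u, v}) {U : Type w} [K.Structure U] (M B A : Set U) : Prop :=
  ∀ (ι κ : Type) [Finite ι] [Finite κ] (φ : K.Formula (ι ⊕ κ)) (b : ι → U) (a : κ → U),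
    (∀ i, b i ∈ B) → (∀ j, a j ∈ A) → φ.Realize (Sum.elim b a) →
      ∃ m : ι → U, (∀ i, m i ∈ M) ∧ φ.Realize (Sum.elim m a)

/-- The f.s. dichotomy of Braunfeld and Laskowski, in the structure `U`: for every elementary
substructure `M`, all finite sets `A`, `B` and every element `c`, if `tp(B/MA)` is finitely satisfiable in
`M`, then so is `tp(B/MAc)` or `tp(Bc/MA)`. -/
def FSDichotomy (K : FirstOrder.Language.{u, v}) (U : Type w) [K.Structure U] : Prop :=
  ∀ (M : K.ElementarySubstructure U) (A B : Set U), A.Finite → B.Finite → ∀ c : U,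
    FS K (M : Set U) B (M ∪ A) →
      FS K (M : Set U) B (M ∪ A ∪ {c}) ∨ FS K (M : Set U) (B ∪ {c}) (M ∪ A)

end Pool.Agent.helper86.FM
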