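import Pool.Agent.helper86.FM.Valid

set_option autoImplicit false

/-!
# The `K`-part of an invariant type is determined by its image and the distribution
-/

open FirstOrder FirstOrder.Language Cardinal Filter

namespace Pool.Agent.helper86.FM

universe u v w u' v' w'

variable {L : FirstOrder.Language.{u, v}} {U : Type w} [L.Structure U]

/-- substitution of terms for the first variables of a formula of the smaller language -/
def subT {K : FirstOrder.Language.{u', v'}} (F : K →ᴸ L) {ι α β : Type*} (τ : ι → L.Term α)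
    (ψ : K.Formula (ι ⊕ β)) : L.Formula (α ⊕ β) :=
  BoundedFormula.subst (F.onFormula ψ)
    (Sum.elim (fun i => (τ i).relabel Sum.inl) (fun k => Term.var (Sum.inr k)))

theorem realize_subT {K : FirstOrder.Language.{u', v'}} [K.Structure U] (F : K →ᴸ L)
    [F.IsExpansionOn U] {ι α β : Type*} (τ : ι → L.Term α) (ψ : K.Formula (ι ⊕ β))
    (x : α → U) (b : β → U) :
    (subT F τ ψ).Realize (Sum.elim x b) ↔
      ψ.Realize (Sum.elim (fun i => (τ i).realize x) b) := by
  have h1 : (subT F τ ψ).Realize (Sum.elim x b) ↔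
      (F.onFormula ψ).Realize (fun a => ((Sum.elim (fun i => (τ i).relabel Sum.inl)
        (fun k => Term.var (Sum.inr k)) : ι ⊕ β → L.Term (α ⊕ β)) a).realize (Sum.elim x b)) :=
    BoundedFormula.realize_subst
  rw [h1, LHom.realize_onFormula]
  apply iff_of_eq
  congr 1
  funext a
  cases a with
  | inl i => simp
  | inr k => simp

theorem exists_star {M M' N N' : L.ElementarySubstructure U} (hF : Frame M M' N N') {κ : Type}
    [Finite κ] (c : κ → U) : ∃ c' : κ → U, (∀ i, c' i ∈ M') ∧ SameType M c c' := by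
  classical
  let A : Set M' := {z | (z : U) ∈ M}
  have hcard : #A ≤ max ℵ₀ #M := by
    refine le_trans ?_ (le_max_right _ _)
    refine Cardinal.mk_le_of_injective (f := fun z : A => (⟨((z : M') : U), z.2⟩ : M)) ?_
    intro z z' h
    have h' : ((z : M') : U) = ((z' : M') : U) := congrArg (fun t : M => (t : U)) h
    exact Subtype.ext (Subtype.ext h')
  let Γ : Set (L.Formula (κ ⊕ A)) := {φ | φ.Realize (Sum.elim c (fun a => ((a : M') : U)))}
  obtain ⟨y, hy⟩ := hF.sat1 A hcard κ Γ (by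
    intro s hs
    obtain ⟨y, hy, hy'⟩ := exists_in M' (Formula.iInf (fun φ : s => (φ : L.Formula (κ ⊕ A))))
      (fun a : A => ((a : M') : U)) (fun a => (a : M').2) c (by
        rw [Formula.realize_iInf]
        exact fun φ => hs φ.2)
    rw [Formula.realize_iInf] at hy'
    refine ⟨fun i => ⟨y i, hy i⟩, fun φ hφ => ?_⟩
    rw [← realize_sub]
    exact realize_congr' (hy' ⟨φ, hφ⟩) (by rintro (i | i) <;> rfl))
  refine ⟨fun i => y i, fun i => (y i).2, ?_⟩
  have main : ∀ (ν : Type) [Finite ν] (ψ : L.Formula (κ ⊕ ν)) (m : ν → U), (∀ i, m i ∈ M) →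
      ψ.Realize (Sum.elim c m) → ψ.Realize (Sum.elim (fun i => (y i : U)) m) := by
    intro ν _ ψ m hm hr
    let m' : ν → A := fun i => ⟨⟨m i, hF.le1 (hm i)⟩, hm i⟩
    have h1 := hy (ψ.relabel (Sum.map id m')) (by
      show (ψ.relabel (Sum.map id m')).Realize _
      rw [Formula.realize_relabel]
      exact realize_congr' hr (by rintro (i | i) <;> rfl))
    rw [← realize_sub, Formula.realize_relabel] at h1
    exact realize_congr' h1 (by rintro (i | i) <;> rfl)
  intro ν _ ψ m hm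
  refine ⟨main ν ψ m hm, fun h => ?_⟩
  by_contra hne
  have h2 := main ν ψ.not m hm (by rw [Formula.realize_not]; exact hne)
  rw [Formula.realize_not] at h2
  exact h2 h

/-- a formula with parameters may be replaced by one which agrees with it on `M` -/
theorem fs_transfer {K : FirstOrder.Language.{u', v'}} [K.Structure U] {M B A : Set U}
    (h : FS K M B A) {ι κ ν : Type} [Finite ι] [Finite κ] [Finite ν]
    (ψ : K.Formula (ι ⊕ (κ ⊕ ν))) {c : κ → U} (hc : ∀ i, c i ∈ B) {u u' : ι → U}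
    (hu : ∀ i, u i ∈ A) (hu' : ∀ i, u' i ∈ A) {m : ν → U} (hm : ∀ i, m i ∈ A)
    (hM : ∀ m' : κ → U, (∀ i, m' i ∈ M) →
      (ψ.Realize (Sum.elim u (Sum.elim m' m)) ↔ ψ.Realize (Sum.elim u' (Sum.elim m' m)))) :
    ψ.Realize (Sum.elim u (Sum.elim c m)) ↔ ψ.Realize (Sum.elim u' (Sum.elim c m)) := by
  by_contra hne
  let r1 : ι ⊕ (κ ⊕ ν) → κ ⊕ ((ι ⊕ ι) ⊕ ν) := fun z => match z with
    | Sum.inl i => Sum.inr (Sum.inl (Sum.inl i))
    | Sum.inr (Sum.inl k) => Sum.inl k
    | Sum.inr (Sum.inr k) => Sum.inr (Sum.inr k)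
  let r2 : ι ⊕ (κ ⊕ ν) → κ ⊕ ((ι ⊕ ι) ⊕ ν) := fun z => match z with
    | Sum.inl i => Sum.inr (Sum.inl (Sum.inr i))
    | Sum.inr (Sum.inl k) => Sum.inl k
    | Sum.inr (Sum.inr k) => Sum.inr (Sum.inr k)
  let θ : K.Formula (κ ⊕ ((ι ⊕ ι) ⊕ ν)) := ((ψ.relabel r1).iff (ψ.relabel r2)).not
  have key : ∀ z : κ → U, θ.Realize (Sum.elim z (Sum.elim (Sum.elim u u') m)) ↔
      ¬ (ψ.Realize (Sum.elim u (Sum.elim z m)) ↔ ψ.Realize (Sum.elim u' (Sum.elim z m))) := by
    intro z
    rw [Formula.realize_not, Formula.realize_iff, Formula.realize_relabel,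
      Formula.realize_relabel]
    have e1 : Sum.elim z (Sum.elim (Sum.elim u u') m) ∘ r1 = Sum.elim u (Sum.elim z m) := by
      funext i
      rcases i with i | i | i <;> rfl
    have e2 : Sum.elim z (Sum.elim (Sum.elim u u') m) ∘ r2 = Sum.elim u' (Sum.elim z m) := by
      funext i
      rcases i with i | i | i <;> rfl
    rw [e1, e2]
  obtain ⟨m', hm', hr⟩ := h κ ((ι ⊕ ι) ⊕ ν) θ c (Sum.elim (Sum.elim u u') m) hc (by
    rintro ((i | i) | i)
    · exact hu i
    · exact hu' i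
    · exact hm i) ((key c).2 hne)
  exact (key m').1 hr (hM m' hm')

theorem determine {K : FirstOrder.Language.{u', v'}} [K.Structure U] (F : K →ᴸ L)
    [F.IsExpansionOn U] {M M' N N' : L.ElementarySubstructure U}
    (hF : Frame M M' N N') {D : Ultrafilter (U → M)} {n : ℕ} {p p' q : GType L U n}
    (hp : IsInvariant M p) (hp' : IsInvariant M p') {x x' : Fin n → U}
    (hxq : ∀ (κ : Type) [Finite κ] (ψ : L.Formula (Fin n ⊕ κ)) (c : κ → U), (∀ i, c i ∈ M') →
        (ψ.Realize (Sum.elim x c) ↔ q.Holds ψ c))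
    (hxp : ∀ (κ : Type) [Finite κ] (ψ : L.Formula (Fin n ⊕ κ)) (c : κ → U), (∀ i, c i ∈ N) →
        (ψ.Realize (Sum.elim x c) ↔ p.Holds ψ c))
    (hxq' : ∀ (κ : Type) [Finite κ] (ψ : L.Formula (Fin n ⊕ κ)) (c : κ → U), (∀ i, c i ∈ M') →
        (ψ.Realize (Sum.elim x' c) ↔ q.Holds ψ c))
    (hxp' : ∀ (κ : Type) [Finite κ] (ψ : L.Formula (Fin n ⊕ κ)) (c : κ → U), (∀ i, c i ∈ N) →
        (ψ.Realize (Sum.elim x' c) ↔ p'.Holds ψ c))
    {J : Type w'} (t : J → L.Term (Fin n)) (S : Set J) (J0 : Finset J) {κ : Type} [Finite κ]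
    (b : κ → U) (hV : Valid K M M' N D (fun j => (t j).realize x) J0 b S)
    (hV' : Valid K M M' N D (fun j => (t j).realize x') J0 b S)
    {ι : Type} [Finite ι] (j : ι → J) (hj : ∀ i, j i ∈ J0) (ψ : K.Formula (ι ⊕ κ)) :
    p.Holds (subT F (fun i => t (j i)) ψ) b ↔ p'.Holds (subT F (fun i => t (j i)) ψ) b := by
  classical
  obtain ⟨b1, b2, hb1, hb2, hs1, hs2, hD, hfs⟩ := hV
  obtain ⟨b1', b2', hb1', hb2', hs1', hs2', hD', hfs'⟩ := hV'
  obtain ⟨xs, hxs, hxs'⟩ := exists_star hF x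
  have hxx : SameType M x x' := fun ν _ ψ m hm => by
    rw [hxq ν ψ m (fun i => hF.le1 (hm i)), hxq' ν ψ m (fun i => hF.le1 (hm i))]
  have hxs'' : SameType M x' xs := hxx.symm.trans hxs'
  have hts : ∀ j, (t j).realize xs ∈ M' := fun j => Term.realize_mem (S := M'.toSubstructure) _ _ hxs
  -- Claim A
  have claimA : ∀ {ι ν : Type} [Finite ι] [Finite ν] (ψ : K.Formula (ι ⊕ (κ ⊕ ν))) (j : ι → J)
      (_ : ∀ i, j i ∈ J0 ∧ j i ∉ S) (m : ν → U) (_ : ∀ i, m i ∈ M),
      (ψ.Realize (Sum.elim (fun i => (t (j i)).realize x) (Sum.elim b2 m)) ↔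
        ψ.Realize (Sum.elim (fun i => (t (j i)).realize x') (Sum.elim b2' m))) := by
    intro ι ν _ _ ψ j hj m hm
    let ρ : ι ⊕ (κ ⊕ ν) → κ ⊕ (ι ⊕ ν) := fun z => match z with
      | Sum.inl i => Sum.inr (Sum.inl i)
      | Sum.inr (Sum.inl k) => Sum.inl k
      | Sum.inr (Sum.inr k) => Sum.inr (Sum.inr k)
    have hρ : ∀ c : κ → U, (F.onFormula (ψ.relabel ρ)).Realize
        (Sum.elim c (Sum.elim (fun i => (t (j i)).realize xs) m)) ↔
        ψ.Realize (Sum.elim (fun i => (t (j i)).realize xs) (Sum.elim c m)) := by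
      intro c
      rw [LHom.realize_onFormula, Formula.realize_relabel]
      have e : Sum.elim c (Sum.elim (fun i => (t (j i)).realize xs) m) ∘ ρ =
          Sum.elim (fun i => (t (j i)).realize xs) (Sum.elim c m) := by
        funext i
        rcases i with i | i | i <;> rfl
      rw [e]
    have h0 : ∀ i : ι ⊕ ν, (Sum.elim (fun i => (t (j i)).realize xs) m : ι ⊕ ν → U) i ∈ M' := by
      rintro (i | i)
      · exact hts _
      · exact hF.le1 (hm i)
    have h1 := hD _ (F.onFormula (ψ.relabel ρ)) _ h0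
    have h1' := hD' _ (F.onFormula (ψ.relabel ρ)) _ h0
    rw [hρ] at h1 h1'
    have h2 : ψ.Realize (Sum.elim (fun i => (t (j i)).realize x) (Sum.elim b2 m)) ↔
        ψ.Realize (Sum.elim (fun i => (t (j i)).realize xs) (Sum.elim b2 m)) := by
      refine fs_transfer hfs ψ (fun i => Or.inl ⟨i, rfl⟩) (fun i => Or.inr ⟨j i, hj i, rfl⟩)
        (fun i => Or.inl (Or.inl (hts _))) (fun i => Or.inl (Or.inl (hF.le1 (hm i)))) ?_
      intro m' hm'
      rw [← realize_subT F (fun i => t (j i)) ψ x, ← realize_subT F (fun i => t (j i)) ψ xs]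
      exact hxs' _ _ _ (by
        rintro (i | i)
        · exact hm' i
        · exact hm i)
    have h2' : ψ.Realize (Sum.elim (fun i => (t (j i)).realize x') (Sum.elim b2' m)) ↔
        ψ.Realize (Sum.elim (fun i => (t (j i)).realize xs) (Sum.elim b2' m)) := by
      refine fs_transfer hfs' ψ (fun i => Or.inl ⟨i, rfl⟩) (fun i => Or.inr ⟨j i, hj i, rfl⟩)
        (fun i => Or.inl (Or.inl (hts _))) (fun i => Or.inl (Or.inl (hF.le1 (hm i)))) ?_
      intro m' hm'
      rw [← realize_subT F (fun i => t (j i)) ψ x', ← realize_subT F (fun i => t (j i)) ψ xs]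
      exact hxs'' _ _ _ (by
        rintro (i | i)
        · exact hm' i
        · exact hm i)
    rw [h2, h2', h1, h1']
  -- Claim B
  have claimB : ∀ {ι ν : Type} [Finite ι] [Finite ν] (ψ : K.Formula (ι ⊕ (κ ⊕ ν))) (j : ι → J)
      (m : ν → U) (_ : ∀ i, m i ∈ M),
      (ψ.Realize (Sum.elim (fun i => (t (j i)).realize x) (Sum.elim b1 m)) ↔
        ψ.Realize (Sum.elim (fun i => (t (j i)).realize x) (Sum.elim b2 m))) := by
    intro ι ν _ _ ψ j m hm
    rw [← realize_subT F (fun i => t (j i)) ψ x, ← realize_subT F (fun i => t (j i)) ψ x]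
    rw [hxp _ _ (Sum.elim b1 m) (by
        rintro (i | i)
        · exact hb1 i
        · exact hF.le4 (hm i)),
      hxp _ _ (Sum.elim b2 m) (by
        rintro (i | i)
        · exact hb2 i
        · exact hF.le4 (hm i))]
    exact hp _ _ _ _ ((hs1.symm.trans hs2).add hm)
  have claimB' : ∀ {ι ν : Type} [Finite ι] [Finite ν] (ψ : K.Formula (ι ⊕ (κ ⊕ ν))) (j : ι → J)
      (m : ν → U) (_ : ∀ i, m i ∈ M),
      (ψ.Realize (Sum.elim (fun i => (t (j i)).realize x') (Sum.elim b1' m)) ↔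
        ψ.Realize (Sum.elim (fun i => (t (j i)).realize x') (Sum.elim b2' m))) := by
    intro ι ν _ _ ψ j m hm
    rw [← realize_subT F (fun i => t (j i)) ψ x', ← realize_subT F (fun i => t (j i)) ψ x']
    rw [hxp' _ _ (Sum.elim b1' m) (by
        rintro (i | i)
        · exact hb1' i
        · exact hF.le4 (hm i)),
      hxp' _ _ (Sum.elim b2' m) (by
        rintro (i | i)
        · exact hb2' i
        · exact hF.le4 (hm i))]
    exact hp' _ _ _ _ ((hs1'.symm.trans hs2').add hm)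
  -- Claim C
  obtain ⟨c0, hc0, hc0'⟩ := exists_star hF (Sum.elim x b1)
  have ht0 : ∀ j, (t j).realize (c0 ∘ Sum.inl) ∈ M' := fun j =>
    Term.realize_mem (S := M'.toSubstructure) _ _ (fun i => hc0 (Sum.inl i))
  have claimC : ∀ {ι1 ι2 ν : Type} [Finite ι1] [Finite ι2] [Finite ν]
      (ψ : K.Formula ((ι2 ⊕ κ) ⊕ (ι1 ⊕ ν))) (s : ι1 → J) (_ : ∀ i, s i ∈ J0 ∧ s i ∈ S)
      (r : ι2 → J) (_ : ∀ i, r i ∈ J0 ∧ r i ∉ S) (m : ν → U) (_ : ∀ i, m i ∈ M),
      (ψ.Realize (Sum.elim (Sum.elim (fun i => (t (r i)).realize x) b1)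
          (Sum.elim (fun i => (t (s i)).realize x) m)) ↔
        ψ.Realize (Sum.elim (Sum.elim (fun i => (t (r i)).realize x') b1')
          (Sum.elim (fun i => (t (s i)).realize x') m))) := by
    intro ι1 ι2 ν _ _ _ ψ s hs r hr m hm
    let τ : ι2 ⊕ κ → L.Term (Fin n ⊕ κ) :=
      Sum.elim (fun i => (t (r i)).relabel Sum.inl) (fun k => Term.var (Sum.inr k))
    have hτ : ∀ c : Fin n ⊕ κ → U, (fun i => (τ i).realize c) =
        Sum.elim (fun i => (t (r i)).realize (c ∘ Sum.inl)) (c ∘ Sum.inr) := by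
      intro c
      funext i
      cases i with
      | inl i => simp [τ]
      | inr i => simp [τ]
    let u0 : ι2 ⊕ κ → U := Sum.elim (fun i => (t (r i)).realize (c0 ∘ Sum.inl)) (c0 ∘ Sum.inr)
    have hu0 : ∀ i, u0 i ∈ M' := by
      rintro (i | i)
      · exact ht0 _
      · exact hc0 _
    -- the type of `(y_r, b1)` over `M`
    have hst : ∀ m' : ι1 → U, (∀ i, m' i ∈ M) →
        (ψ.Realize (Sum.elim (Sum.elim (fun i => (t (r i)).realize x) b1) (Sum.elim m' m)) ↔
          ψ.Realize (Sum.elim u0 (Sum.elim m' m))) := by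
      intro m' hm'
      have h1 := hc0' _ (subT F τ ψ) (Sum.elim m' m) (by
        rintro (i | i)
        · exact hm' i
        · exact hm i)
      rw [realize_subT, realize_subT, hτ, hτ] at h1
      exact h1
    have hst' : ∀ m' : ι1 → U, (∀ i, m' i ∈ M) →
        (ψ.Realize (Sum.elim (Sum.elim (fun i => (t (r i)).realize x') b1') (Sum.elim m' m)) ↔
          ψ.Realize (Sum.elim u0 (Sum.elim m' m))) := by
      intro m' hm'
      let ρ : (ι2 ⊕ κ) ⊕ (ι1 ⊕ ν) → ι2 ⊕ (κ ⊕ (ι1 ⊕ ν)) := fun z => match z with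
        | Sum.inl (Sum.inl i) => Sum.inl i
        | Sum.inl (Sum.inr k) => Sum.inr (Sum.inl k)
        | Sum.inr k => Sum.inr (Sum.inr k)
      have hρ : ∀ (z : ι2 → U) (c : κ → U), (ψ.relabel ρ).Realize
          (Sum.elim z (Sum.elim c (Sum.elim m' m))) ↔
          ψ.Realize (Sum.elim (Sum.elim z c) (Sum.elim m' m)) := by
        intro z c
        rw [Formula.realize_relabel]
        have e : Sum.elim z (Sum.elim c (Sum.elim m' m)) ∘ ρ =
            Sum.elim (Sum.elim z c) (Sum.elim m' m) := by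
          funext i
          rcases i with (i | i) | i <;> rfl
        rw [e]
      have hmm : ∀ i : ι1 ⊕ ν, (Sum.elim m' m : ι1 ⊕ ν → U) i ∈ M := by
        rintro (i | i)
        · exact hm' i
        · exact hm i
      rw [← hst m' hm', ← hρ, ← hρ, claimB (ψ.relabel ρ) r _ hmm,
        claimB' (ψ.relabel ρ) r _ hmm]
      exact (claimA (ψ.relabel ρ) r hr _ hmm).symm
    have h2 : ψ.Realize (Sum.elim (Sum.elim (fun i => (t (r i)).realize x) b1)
          (Sum.elim (fun i => (t (s i)).realize x) m)) ↔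
        ψ.Realize (Sum.elim u0 (Sum.elim (fun i => (t (s i)).realize x) m)) := by
      refine fs_transfer hfs ψ (fun i => Or.inr ⟨s i, hs i, rfl⟩) ?_
        (fun i => Or.inl (Or.inl (hu0 i))) (fun i => Or.inl (Or.inl (hF.le1 (hm i)))) hst
      rintro (i | i)
      · exact Or.inr ⟨r i, hr i, rfl⟩
      · exact Or.inl (Or.inr ⟨i, rfl⟩)
    have h2' : ψ.Realize (Sum.elim (Sum.elim (fun i => (t (r i)).realize x') b1')
          (Sum.elim (fun i => (t (s i)).realize x') m)) ↔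
        ψ.Realize (Sum.elim u0 (Sum.elim (fun i => (t (s i)).realize x') m)) := by
      refine fs_transfer hfs' ψ (fun i => Or.inr ⟨s i, hs i, rfl⟩) ?_
        (fun i => Or.inl (Or.inl (hu0 i))) (fun i => Or.inl (Or.inl (hF.le1 (hm i)))) hst'
      rintro (i | i)
      · exact Or.inr ⟨r i, hr i, rfl⟩
      · exact Or.inl (Or.inr ⟨i, rfl⟩)
    rw [h2, h2']
    let ρ : (ι2 ⊕ κ) ⊕ (ι1 ⊕ ν) → ι1 ⊕ ((ι2 ⊕ κ) ⊕ ν) := fun z => match z with
      | Sum.inl i => Sum.inr (Sum.inl i)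
      | Sum.inr (Sum.inl k) => Sum.inl k
      | Sum.inr (Sum.inr k) => Sum.inr (Sum.inr k)
    have hρ : ∀ z : ι1 → U, (ψ.relabel ρ).Realize (Sum.elim z (Sum.elim u0 m)) ↔
        ψ.Realize (Sum.elim u0 (Sum.elim z m)) := by
      intro z
      rw [Formula.realize_relabel]
      have e : Sum.elim z (Sum.elim u0 m) ∘ ρ = Sum.elim u0 (Sum.elim z m) := by
        funext i
        rcases i with i | i | i <;> rfl
      rw [e]
    have h0 : ∀ i : (ι2 ⊕ κ) ⊕ ν, (Sum.elim u0 m : (ι2 ⊕ κ) ⊕ ν → U) i ∈ M' := by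
      rintro (i | i)
      · exact hu0 i
      · exact hF.le1 (hm i)
    rw [← hρ, ← hρ, ← realize_subT F (fun i => t (s i)) (ψ.relabel ρ) x,
      ← realize_subT F (fun i => t (s i)) (ψ.relabel ρ) x', hxq _ _ _ h0, hxq' _ _ _ h0]
  -- conclusion
  let ρ : ι ⊕ κ → ({i // j i ∉ S} ⊕ κ) ⊕ ({i // j i ∈ S} ⊕ Empty) := fun z => match z with
    | Sum.inl i => if h : j i ∈ S then Sum.inr (Sum.inl ⟨i, h⟩) else Sum.inl (Sum.inl ⟨i, h⟩)
    | Sum.inr k => Sum.inl (Sum.inr k)
  have hρ : ∀ (z : Fin n → U) (c : κ → U), (ψ.relabel ρ).Realize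
      (Sum.elim (Sum.elim (fun i : {i // j i ∉ S} => (t (j i)).realize z) c)
        (Sum.elim (fun i : {i // j i ∈ S} => (t (j i)).realize z) (fun e : Empty => e.elim))) ↔
      ψ.Realize (Sum.elim (fun i => (t (j i)).realize z) c) := by
    intro z c
    rw [Formula.realize_relabel]
    apply iff_of_eq
    congr 1
    funext i
    rcases i with i | i
    · by_cases h : j i ∈ S
      · simp [ρ, h]
      · simp [ρ, h]
    · rfl
  have hfinal := claimC (ψ.relabel ρ) (fun i : {i // j i ∈ S} => j i) (fun i => ⟨hj _, i.2⟩)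
    (fun i : {i // j i ∉ S} => j i) (fun i => ⟨hj _, i.2⟩) (fun e : Empty => e.elim)
    (fun e => e.elim)
  rw [hρ, hρ, ← realize_subT F (fun i => t (j i)) ψ x,
    ← realize_subT F (fun i => t (j i)) ψ x', hxp _ _ _ hb1, hxp' _ _ _ hb1'] at hfinal
  rw [hp _ _ _ _ hs1, hp' _ _ _ _ hs1']
  exact hfinal

end Pool.Agent.helper86.FM
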