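import Pool.Agent.helper86.FM.Determine

set_option autoImplicit false

/-!
# The fibres of `F_M`
-/

open FirstOrder FirstOrder.Language Cardinal Filter

namespace Pool.Agent.helper86.FM

universe u v w u' v' w' w''

variable {L : FirstOrder.Language.{u, v}} {U : Type w} [L.Structure U]

/-- The type of an `n`-tuple `x` over a finite tuple `b` is determined by the truth values of the
formulas `ψ(t_j(x), ..; r(b), ..)`, where `ψ` is a formula of one of the languages `K i`, the `t_j` are
the given `L`-terms and the `r` are arbitrary `L`-terms. -/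
def Determined {I : Type w''} (K : I → FirstOrder.Language.{u', v'}) [∀ i, (K i).Structure U]
    {J : Type w'} {n : ℕ} (t : J → L.Term (Fin n)) : Prop :=
  ∀ (k : ℕ) (b : Fin k → U) (x x' : Fin n → U),
    (∀ (i : I) (ι κ : Type) [Finite ι] [Finite κ] (ψ : (K i).Formula (ι ⊕ κ)) (j : ι → J)
      (r : κ → L.Term (Fin k)),
        (ψ.Realize (Sum.elim (fun a => (t (j a)).realize x) (fun a => (r a).realize b)) ↔
          ψ.Realize (Sum.elim (fun a => (t (j a)).realize x') (fun a => (r a).realize b)))) →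
    ∀ φ : L.Formula (Fin n ⊕ Fin k), φ.Realize (Sum.elim x b) ↔ φ.Realize (Sum.elim x' b)

/-- a type over finitely many elements of `U` is realized -/
theorem exists_real {M M' N N' : L.ElementarySubstructure U} (hF : Frame M M' N N') {n : ℕ}
    (p : GType L U n) (k : ℕ) (b : Fin k → U) : ∃ x : Fin n → U,
      ∀ (κ : Type) [Finite κ] (ψ : L.Formula (Fin n ⊕ κ)) (c : κ → U),
        (∀ i, c i ∈ Set.range b) → (ψ.Realize (Sum.elim x c) ↔ p.Holds ψ c) := by
  classical
  let A : Set U := Set.range b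
  have hcard : #A ≤ max ℵ₀ #N' :=
    (Set.finite_range b).lt_aleph0.le.trans (le_max_left _ _)
  let Γ : Set (L.Formula (Fin n ⊕ A)) := {φ | p.mem (φ.relabel (Sum.map id (fun a : A => (a : U))))}
  obtain ⟨x, hx⟩ := hF.sat3 A hcard (Fin n) Γ (by
    intro s hs
    obtain ⟨x0, hx0⟩ := p.sat (s.image
      (fun φ => φ.relabel (Sum.map id (fun a : A => (a : U))))) (by
        intro θ hθ
        obtain ⟨φ, hφ, rfl⟩ := Finset.mem_image.1 hθ
        exact hs hφ)
    refine ⟨x0, fun φ hφ => ?_⟩
    have h2 := hx0 _ (Finset.mem_image_of_mem _ hφ)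
    rw [Formula.realize_relabel] at h2
    exact realize_congr' h2 (by rintro (i | i) <;> rfl))
  have main : ∀ (κ : Type) [Finite κ] (ψ : L.Formula (Fin n ⊕ κ)) (c : κ → U),
      (∀ i, c i ∈ Set.range b) → p.Holds ψ c → ψ.Realize (Sum.elim x c) := by
    intro κ _ ψ c hc hh
    let c' : κ → A := fun i => ⟨c i, hc i⟩
    have h2 := hx (ψ.relabel (Sum.map id c')) (by
      show p.mem _
      refine (p.mem_congr fun z => ?_).1 hh
      rw [Formula.realize_relabel, Formula.realize_relabel, Formula.realize_relabel]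
      apply iff_of_eq
      congr 1
      funext i
      cases i <;> rfl)
    rw [Formula.realize_relabel] at h2
    exact realize_congr' h2 (by rintro (i | i) <;> rfl)
  refine ⟨x, fun κ _ ψ c hc => ⟨fun hr => ?_, main κ ψ c hc⟩⟩
  by_contra hne
  rw [← p.holds_not] at hne
  have h3 := main κ _ c hc hne
  rw [Formula.realize_not] at h3
  exact h3 hr

/-- substitution of terms for all the variables -/
def subTT {K : FirstOrder.Language.{u', v'}} (F : K →ᴸ L) {ι κ α β : Type*} (τ : ι → L.Term α)
    (r : κ → L.Term β) (ψ : K.Formula (ι ⊕ κ)) : L.Formula (α ⊕ β) :=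
  BoundedFormula.subst (F.onFormula ψ) (Sum.elim (fun i => (τ i).relabel Sum.inl)
    (fun k => (r k).relabel Sum.inr))

theorem realize_subTT {K : FirstOrder.Language.{u', v'}} [K.Structure U] (F : K →ᴸ L)
    [F.IsExpansionOn U] {ι κ α β : Type*} (τ : ι → L.Term α) (r : κ → L.Term β)
    (ψ : K.Formula (ι ⊕ κ)) (x : α → U) (b : β → U) :
    (subTT F τ r ψ).Realize (Sum.elim x b) ↔
      ψ.Realize (Sum.elim (fun i => (τ i).realize x) (fun k => (r k).realize b)) := by
  have h1 : (subTT F τ r ψ).Realize (Sum.elim x b) ↔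
      (F.onFormula ψ).Realize (fun a => ((Sum.elim (fun i => (τ i).relabel Sum.inl)
        (fun k => (r k).relabel Sum.inr) : ι ⊕ κ → L.Term (α ⊕ β)) a).realize (Sum.elim x b)) :=
    BoundedFormula.realize_subst
  rw [h1, LHom.realize_onFormula]
  apply iff_of_eq
  congr 1
  funext a
  cases a with
  | inl i => simp
  | inr k => simp

/-- The fibre of `F_M` over `q` embeds into the set of the families `(S_i)` of subsets of `J`. -/
theorem embeds [Nonempty U] {I : Type w''} (K : I → FirstOrder.Language.{u', v'})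
    [∀ i, (K i).Structure U] (F : ∀ i, K i →ᴸ L) [∀ i, (F i).IsExpansionOn U]
    (hD : ∀ i, FSDichotomy (K i) U) {J : Type w'} {n : ℕ} (t : J → L.Term (Fin n))
    (hdet : Determined (U := U) K t) {M M' N N' : L.ElementarySubstructure U} (hF : Frame M M' N N')
    (q : GType L U n) :
    ∃ f : {p : GType L U n // IsInvariant M p ∧ IsImage M M' N p q} → (I → Set J),
      Function.Injective f := by
  classical
  obtain ⟨D, hDM⟩ := exists_D (U := U) M
  have hx : ∀ p : {p : GType L U n // IsInvariant M p ∧ IsImage M M' N p q}, ∃ x : Fin n → U,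
      (∀ (κ : Type) [Finite κ] (ψ : L.Formula (Fin n ⊕ κ)) (c : κ → U), (∀ i, c i ∈ M') →
        (ψ.Realize (Sum.elim x c) ↔ q.Holds ψ c)) ∧
      (∀ (κ : Type) [Finite κ] (ψ : L.Formula (Fin n ⊕ κ)) (c : κ → U), (∀ i, c i ∈ N) →
        (ψ.Realize (Sum.elim x c) ↔ p.1.Holds ψ c)) := fun p => exists_x hF p.2.2
  choose x hxq hxp using hx
  have hS : ∀ (p : {p : GType L U n // IsInvariant M p ∧ IsImage M M' N p q}) (i : I),
      ∃ S : Set J, ∀ (J0 : Finset J) (κ : Type) [Finite κ] (b : κ → U),
        Valid (K i) M M' N D (fun j => (t j).realize (x p)) J0 b S := fun p i =>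
    exists_S (F i) (hD i) hF (hDM) (fun j => (t j).realize (x p))
  choose S hS using hS
  refine ⟨S, fun p p' hpp => ?_⟩
  -- the two types agree on all formulas of the `K i` applied to the terms
  have agree : ∀ (i : I) (ι κ : Type) [Finite ι] [Finite κ] (ψ : (K i).Formula (ι ⊕ κ))
      (j : ι → J) (b : κ → U), (p.1.Holds (subT (F i) (fun a => t (j a)) ψ) b ↔
        p'.1.Holds (subT (F i) (fun a => t (j a)) ψ) b) := by
    intro i ι κ _ _ ψ j b
    let J0 : Finset J := (Set.finite_range j).toFinset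
    have hV := hS p i J0 κ b
    have hV' := hS p' i J0 κ b
    rw [← congrFun hpp i] at hV'
    exact determine (F i) hF p.2.1 p'.2.1 (hxq p) (hxp p) (hxq p') (hxp p') t _ J0 b hV hV' j
      (fun a => by simp [J0]) ψ
  apply Subtype.ext
  apply GType.ext'
  intro φ hφ
  obtain ⟨k, b, ψ0, hψ0⟩ := fin_support (U := U) φ
  have e0 : ∀ z : Fin n → U, ψ0.Realize (Sum.elim z b) ↔ φ.Realize (Sum.elim z id) := by
    intro z
    rw [← hψ0]
    apply iff_of_eq
    congr 1
    funext i
    cases i <;> rfl
  obtain ⟨y, hy⟩ := exists_real hF p.1 k b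
  obtain ⟨y', hy'⟩ := exists_real hF p'.1 k b
  have hb : ∀ i, b i ∈ Set.range b := fun i => ⟨i, rfl⟩
  have h1 : p.1.Holds ψ0 b := by
    refine p.1.mem_of_imp hφ fun z hz => ?_
    rw [realize_inst]
    exact (e0 z).2 hz
  have h2 : ψ0.Realize (Sum.elim y b) := (hy _ ψ0 b hb).2 h1
  have h3 : ψ0.Realize (Sum.elim y' b) := by
    refine (hdet k b y y' ?_ ψ0).1 h2
    intro i ι κ _ _ ψ j r
    rw [← realize_subTT (F i) (fun a => t (j a)) r ψ y b,
      ← realize_subTT (F i) (fun a => t (j a)) r ψ y' b, hy _ _ b hb, hy' _ _ b hb]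
    have h4 := agree i ι κ ψ j (fun a => (r a).realize b)
    have e1 : ∀ p : GType L U n,
        p.Holds (subTT (F i) (fun a => t (j a)) r ψ) b ↔
        p.Holds (subT (F i) (fun a => t (j a)) ψ) (fun a => (r a).realize b) := by
      intro p
      refine p.mem_congr fun z => ?_
      rw [realize_inst, realize_inst, realize_subTT, realize_subT]
    rw [e1, e1]
    exact h4
  have h5 : p'.1.Holds ψ0 b := (hy' _ ψ0 b hb).1 h3
  refine p'.1.mem_of_imp h5 fun z hz => ?_
  rw [realize_inst] at hz
  exact (e0 z).1 hz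

end Pool.Agent.helper86.FM
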