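import Pool.Agent.helper86.FM.Main

set_option autoImplicit false

/-!
# Dense linear orders without endpoints satisfy the f.s. dichotomy
-/

open FirstOrder FirstOrder.Language Cardinal Filter

namespace Pool.Agent.helper86.FM

universe u v w

section pure

variable {V : Type w} [LinearOrder V]

/-- `M` is dense without endpoints -/
def DM (M : Set V) : Prop :=
  ∀ lo hi : Finset V, (lo : Set V) ⊆ M → (hi : Set V) ⊆ M → (∀ x ∈ lo, ∀ y ∈ hi, x < y) →
    ∃ m ∈ M, (∀ x ∈ lo, x < m) ∧ ∀ y ∈ hi, m < y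

def FromL (M A : Set V) (b : V) : Prop :=
  ∀ s : Finset V, (s : Set V) ⊆ A → (∀ a ∈ s, a < b) → ∃ m ∈ M, m < b ∧ ∀ a ∈ s, a < m

def FromR (M A : Set V) (b : V) : Prop :=
  ∀ s : Finset V, (s : Set V) ⊆ A → (∀ a ∈ s, b < a) → ∃ m ∈ M, b < m ∧ ∀ a ∈ s, m < a

def Good (M A : Set V) (b : V) : Prop := b ∈ M ∨ (b ∉ A ∧ (FromL M A b ∨ FromR M A b))

def FS2 (M A B : Set V) : Prop :=
  ∀ s : Finset V, (s : Set V) ⊆ A → ∃ g : V → V, (∀ b ∈ B, g b ∈ M) ∧ (∀ a ∈ s, g a = a) ∧
    StrictMonoOn g ((s : Set V) ∪ B)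

theorem good_dich {M A : Set V} (_hMA : M ⊆ A) {b c : V} (hb : Good M A b) (hc : ¬ Good M A c) :
    Good M (insert c A) b := by
  classical
  by_cases hcA : c ∈ A
  · rw [Set.insert_eq_of_mem hcA]
    exact hb
  have hcM : c ∉ M := fun h => hc (Or.inl h)
  have hcL : ¬ FromL M A c := fun h => hc (Or.inr ⟨hcA, Or.inl h⟩)
  have hcR : ¬ FromR M A c := fun h => hc (Or.inr ⟨hcA, Or.inr h⟩)
  have hbc : b ≠ c := fun h => hc (h ▸ hb)
  rcases hb with hbM | ⟨hbA, hb | hb⟩
  · exact Or.inl hbM
  · refine Or.inr ⟨fun h => (Set.mem_insert_iff.1 h).elim hbc hbA, Or.inl ?_⟩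
    intro s hs hlt
    by_cases hcs : c ∈ s
    · by_cases hm : ∃ m ∈ M, c < m ∧ m < b
      · obtain ⟨m, hmM, hm1, hm2⟩ := hm
        obtain ⟨m', hm', hm'b, h⟩ := hb (insert m (s.erase c)) (by
          intro a ha
          simp only [Finset.coe_insert, Set.mem_insert_iff, Finset.coe_erase, Set.mem_sdiff,
            Finset.mem_coe, Set.mem_singleton_iff] at ha
          rcases ha with rfl | ⟨ha, hac⟩
          · exact _hMA hmM
          · exact (Set.mem_insert_iff.1 (hs ha)).resolve_left hac) (by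
          intro a ha
          rcases Finset.mem_insert.1 ha with rfl | ha
          · exact hm2
          · exact hlt a (Finset.mem_of_mem_erase ha))
        refine ⟨m', hm', hm'b, fun a ha => ?_⟩
        by_cases hac : a = c
        · subst hac
          exact hm1.trans (h m (Finset.mem_insert_self _ _))
        · exact h a (Finset.mem_insert_of_mem (Finset.mem_erase.2 ⟨hac, ha⟩))
      · exfalso
        apply hcL
        intro s' hs' hlt'
        obtain ⟨m, hmM, hmb, h⟩ := hb s' hs' (fun a ha => (hlt' a ha).trans (hlt c hcs))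
        refine ⟨m, hmM, ?_, h⟩
        rcases lt_trichotomy m c with h1 | h1 | h1
        · exact h1
        · exact absurd (h1 ▸ hmM) hcM
        · exact absurd ⟨m, hmM, h1, hmb⟩ hm
    · exact hb s (fun a ha => (Set.mem_insert_iff.1 (hs ha)).resolve_left
        (fun h => hcs (h ▸ ha))) hlt
  · refine Or.inr ⟨fun h => (Set.mem_insert_iff.1 h).elim hbc hbA, Or.inr ?_⟩
    intro s hs hlt
    by_cases hcs : c ∈ s
    · by_cases hm : ∃ m ∈ M, b < m ∧ m < c
      · obtain ⟨m, hmM, hm1, hm2⟩ := hm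
        obtain ⟨m', hm', hm'b, h⟩ := hb (insert m (s.erase c)) (by
          intro a ha
          simp only [Finset.coe_insert, Set.mem_insert_iff, Finset.coe_erase, Set.mem_sdiff,
            Finset.mem_coe, Set.mem_singleton_iff] at ha
          rcases ha with rfl | ⟨ha, hac⟩
          · exact _hMA hmM
          · exact (Set.mem_insert_iff.1 (hs ha)).resolve_left hac) (by
          intro a ha
          rcases Finset.mem_insert.1 ha with rfl | ha
          · exact hm1
          · exact hlt a (Finset.mem_of_mem_erase ha))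
        refine ⟨m', hm', hm'b, fun a ha => ?_⟩
        by_cases hac : a = c
        · subst hac
          exact (h m (Finset.mem_insert_self _ _)).trans hm2
        · exact h a (Finset.mem_insert_of_mem (Finset.mem_erase.2 ⟨hac, ha⟩))
      · exfalso
        apply hcR
        intro s' hs' hlt'
        obtain ⟨m, hmM, hmb, h⟩ := hb s' hs' (fun a ha => (hlt c hcs).trans (hlt' a ha))
        refine ⟨m, hmM, ?_, h⟩
        rcases lt_trichotomy m c with h1 | h1 | h1
        · exact absurd ⟨m, hmM, hmb, h1⟩ hm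
        · exact absurd (h1 ▸ hmM) hcM
        · exact h1
    · exact hb s (fun a ha => (Set.mem_insert_iff.1 (hs ha)).resolve_left
        (fun h => hcs (h ▸ ha))) hlt

theorem stepL {M A : Set V} (hM : DM M) (hMA : M ⊆ A) {s B : Finset V} {c : V}
    (hs : (s : Set V) ⊆ A) (hcA : c ∉ A) (hc : FromL M A c) {g : V → V} (hgB : ∀ b ∈ B, g b ∈ M)
    (hgs : ∀ a ∈ s, g a = a) (hg : StrictMonoOn g ((s : Set V) ∪ B))
    (hμ : ¬ ∃ μ ∈ M, (∀ z, (z ∈ s ∨ z ∈ B) → z < c → z < μ) ∧
      (∀ z, (z ∈ s ∨ z ∈ B) → c < z → μ < z)) :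
    ∃ m ∈ M, (∀ z, (z ∈ s ∨ z ∈ B) → z < c → g z < m) ∧
      (∀ z, (z ∈ s ∨ z ∈ B) → c < z → m < g z) := by
  classical
  have hgU : ∀ z, (z ∈ s ∨ z ∈ B) → z ∈ ((s : Set V) ∪ B) := fun z hz => hz
  obtain ⟨l, hlB, hlc, hl⟩ : ∃ l ∈ B, l < c ∧ ∀ z, (z ∈ s ∨ z ∈ B) → z < c → z ≤ l := by
    by_cases he : ((s ∪ B).filter (· < c)).Nonempty
    · have h1 := ((s ∪ B).filter (· < c)).max'_mem he
      set l := ((s ∪ B).filter (· < c)).max' he
      rw [Finset.mem_filter, Finset.mem_union] at h1
      have h2 : ∀ z, (z ∈ s ∨ z ∈ B) → z < c → z ≤ l := fun z hz hzc =>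
        Finset.le_max' _ _ (Finset.mem_filter.2 ⟨Finset.mem_union.2 hz, hzc⟩)
      rcases h1.1 with h3 | h3
      · exfalso
        obtain ⟨m, hm, hmc, hlm⟩ := hc {l} (by simpa using hs h3) (by simpa using h1.2)
        refine hμ ⟨m, hm, fun z hz hzc => (h2 z hz hzc).trans_lt (hlm l (by simp)),
          fun z _ hzc => hmc.trans hzc⟩
      · exact ⟨l, h3, h1.2, h2⟩
    · exfalso
      obtain ⟨m, hm, hmc, -⟩ := hc ∅ (by simp) (by simp)
      refine hμ ⟨m, hm, fun z hz hzc => ?_, fun z _ hzc => hmc.trans hzc⟩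
      exact absurd ⟨z, Finset.mem_filter.2 ⟨Finset.mem_union.2 hz, hzc⟩⟩ he
  have hgl : ∀ z, (z ∈ s ∨ z ∈ B) → z < c → g z ≤ g l := fun z hz hzc =>
    hg.monotoneOn (hgU z hz) (hgU l (Or.inr hlB)) (hl z hz hzc)
  by_cases he : ((s ∪ B).filter (c < ·)).Nonempty
  · have h1 := ((s ∪ B).filter (c < ·)).min'_mem he
    set u := ((s ∪ B).filter (c < ·)).min' he
    rw [Finset.mem_filter, Finset.mem_union] at h1
    have h2 : ∀ z, (z ∈ s ∨ z ∈ B) → c < z → u ≤ z := fun z hz hzc =>
      Finset.min'_le _ _ (Finset.mem_filter.2 ⟨Finset.mem_union.2 hz, hzc⟩)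
    have hgu : ∀ z, (z ∈ s ∨ z ∈ B) → c < z → g u ≤ g z := fun z hz hzc =>
      hg.monotoneOn (hgU u h1.1) (hgU z hz) (h2 z hz hzc)
    have hlu : g l < g u := hg (hgU l (Or.inr hlB)) (hgU u h1.1) (hlc.trans h1.2)
    rcases h1.1 with h3 | h3
    · rw [hgs u h3] at hlu hgu
      rcases lt_trichotomy (g l) c with h4 | h4 | h4
      · obtain ⟨m, hm, hmc, hlm⟩ := hc {g l} (by simpa using hMA (hgB l hlB)) (by simpa using h4)
        refine ⟨m, hm, fun z hz hzc => (hgl z hz hzc).trans_lt (hlm _ (by simp)),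
          fun z hz hzc => (hmc.trans h1.2).trans_le (hgu z hz hzc)⟩
      · exact absurd (h4 ▸ hMA (hgB l hlB)) hcA
      · exfalso
        exact hμ ⟨g l, hgB l hlB, fun z _ hzc => hzc.trans h4,
          fun z hz hzc => hlu.trans_le (h2 z hz hzc)⟩
    · obtain ⟨m, hm, hm1, hm2⟩ := hM {g l} {g u} (by simpa using hgB l hlB)
        (by simpa using hgB u h3) (by simpa using hlu)
      exact ⟨m, hm, fun z hz hzc => (hgl z hz hzc).trans_lt (hm1 _ (by simp)),
        fun z hz hzc => (hm2 _ (by simp)).trans_le (hgu z hz hzc)⟩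
  · obtain ⟨m, hm, hm1, -⟩ := hM {g l} ∅ (by simpa using hgB l hlB) (by simp) (by simp)
    refine ⟨m, hm, fun z hz hzc => (hgl z hz hzc).trans_lt (hm1 _ (by simp)), fun z hz hzc => ?_⟩
    exact absurd ⟨z, Finset.mem_filter.2 ⟨Finset.mem_union.2 hz, hzc⟩⟩ he

theorem stepR {M A : Set V} (hM : DM M) (hMA : M ⊆ A) {s B : Finset V} {c : V}
    (hs : (s : Set V) ⊆ A) (hcA : c ∉ A) (hc : FromR M A c) {g : V → V} (hgB : ∀ b ∈ B, g b ∈ M)
    (hgs : ∀ a ∈ s, g a = a) (hg : StrictMonoOn g ((s : Set V) ∪ B))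
    (hμ : ¬ ∃ μ ∈ M, (∀ z, (z ∈ s ∨ z ∈ B) → z < c → z < μ) ∧
      (∀ z, (z ∈ s ∨ z ∈ B) → c < z → μ < z)) :
    ∃ m ∈ M, (∀ z, (z ∈ s ∨ z ∈ B) → z < c → g z < m) ∧
      (∀ z, (z ∈ s ∨ z ∈ B) → c < z → m < g z) := by
  classical
  have hgU : ∀ z, (z ∈ s ∨ z ∈ B) → z ∈ ((s : Set V) ∪ B) := fun z hz => hz
  obtain ⟨u, huB, huc, hu⟩ : ∃ u ∈ B, c < u ∧ ∀ z, (z ∈ s ∨ z ∈ B) → c < z → u ≤ z := by
    by_cases he : ((s ∪ B).filter (c < ·)).Nonempty
    · have h1 := ((s ∪ B).filter (c < ·)).min'_mem he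
      set u := ((s ∪ B).filter (c < ·)).min' he
      rw [Finset.mem_filter, Finset.mem_union] at h1
      have h2 : ∀ z, (z ∈ s ∨ z ∈ B) → c < z → u ≤ z := fun z hz hzc =>
        Finset.min'_le _ _ (Finset.mem_filter.2 ⟨Finset.mem_union.2 hz, hzc⟩)
      rcases h1.1 with h3 | h3
      · exfalso
        obtain ⟨m, hm, hmc, hlm⟩ := hc {u} (by simpa using hs h3) (by simpa using h1.2)
        refine hμ ⟨m, hm, fun z _ hzc => hzc.trans hmc,
          fun z hz hzc => (hlm u (by simp)).trans_le (h2 z hz hzc)⟩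
      · exact ⟨u, h3, h1.2, h2⟩
    · exfalso
      obtain ⟨m, hm, hmc, -⟩ := hc ∅ (by simp) (by simp)
      refine hμ ⟨m, hm, fun z _ hzc => hzc.trans hmc, fun z hz hzc => ?_⟩
      exact absurd ⟨z, Finset.mem_filter.2 ⟨Finset.mem_union.2 hz, hzc⟩⟩ he
  have hgu : ∀ z, (z ∈ s ∨ z ∈ B) → c < z → g u ≤ g z := fun z hz hzc =>
    hg.monotoneOn (hgU u (Or.inr huB)) (hgU z hz) (hu z hz hzc)
  by_cases he : ((s ∪ B).filter (· < c)).Nonempty
  · have h1 := ((s ∪ B).filter (· < c)).max'_mem he
    set l := ((s ∪ B).filter (· < c)).max' he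
    rw [Finset.mem_filter, Finset.mem_union] at h1
    have h2 : ∀ z, (z ∈ s ∨ z ∈ B) → z < c → z ≤ l := fun z hz hzc =>
      Finset.le_max' _ _ (Finset.mem_filter.2 ⟨Finset.mem_union.2 hz, hzc⟩)
    have hgl : ∀ z, (z ∈ s ∨ z ∈ B) → z < c → g z ≤ g l := fun z hz hzc =>
      hg.monotoneOn (hgU z hz) (hgU l h1.1) (h2 z hz hzc)
    have hlu : g l < g u := hg (hgU l h1.1) (hgU u (Or.inr huB)) (h1.2.trans huc)
    rcases h1.1 with h3 | h3
    · rw [hgs l h3] at hlu hgl
      rcases lt_trichotomy c (g u) with h4 | h4 | h4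
      · obtain ⟨m, hm, hmc, hlm⟩ := hc {g u} (by simpa using hMA (hgB u huB)) (by simpa using h4)
        refine ⟨m, hm, fun z hz hzc => (hgl z hz hzc).trans_lt (h1.2.trans hmc),
          fun z hz hzc => (hlm _ (by simp)).trans_le (hgu z hz hzc)⟩
      · exact absurd (h4 ▸ hMA (hgB u huB)) hcA
      · exfalso
        exact hμ ⟨g u, hgB u huB, fun z hz hzc => (h2 z hz hzc).trans_lt hlu,
          fun z _ hzc => h4.trans hzc⟩
    · obtain ⟨m, hm, hm1, hm2⟩ := hM {g l} {g u} (by simpa using hgB l h3)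
        (by simpa using hgB u huB) (by simpa using hlu)
      exact ⟨m, hm, fun z hz hzc => (hgl z hz hzc).trans_lt (hm1 _ (by simp)),
        fun z hz hzc => (hm2 _ (by simp)).trans_le (hgu z hz hzc)⟩
  · obtain ⟨m, hm, -, hm2⟩ := hM ∅ {g u} (by simp) (by simpa using hgB u huB) (by simp)
    refine ⟨m, hm, fun z hz hzc => ?_, fun z hz hzc => (hm2 _ (by simp)).trans_le (hgu z hz hzc)⟩
    exact absurd ⟨z, Finset.mem_filter.2 ⟨Finset.mem_union.2 hz, hzc⟩⟩ he

theorem fs2_step {M A : Set V} (hM : DM M) (hMA : M ⊆ A) {B : Finset V} {c : V}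
    (hB : FS2 M A (B : Set V)) (hc : Good M A c) : FS2 M A (insert c (B : Set V)) := by
  classical
  rcases hc with hc | ⟨hcA, hc⟩
  · intro s hs
    obtain ⟨g, h1, h2, h3⟩ := hB (insert c s) (by
      intro a ha
      rcases Finset.mem_insert.1 ha with rfl | ha
      · exact hMA hc
      · exact hs ha)
    refine ⟨g, ?_, fun a ha => h2 a (Finset.mem_insert_of_mem ha), h3.mono ?_⟩
    · rintro b (rfl | hb)
      · rw [h2 b (Finset.mem_insert_self _ _)]
        exact hc
      · exact h1 b hb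
    · rintro z (hz | rfl | hz)
      · exact Or.inl (Finset.mem_insert_of_mem hz)
      · exact Or.inl (Finset.mem_insert_self _ _)
      · exact Or.inr hz
  · by_cases hcB : c ∈ B
    · rw [Set.insert_eq_of_mem (show c ∈ (B : Set V) from hcB)]
      exact hB
    intro s hs
    have hcs : c ∉ s := fun h => hcA (hs h)
    obtain ⟨g, h1, h2, h3, m, hm, h4, h5⟩ : ∃ g : V → V, (∀ b ∈ B, g b ∈ M) ∧ (∀ a ∈ s, g a = a) ∧
        StrictMonoOn g ((s : Set V) ∪ B) ∧ ∃ m ∈ M, (∀ z, (z ∈ s ∨ z ∈ B) → z < c → g z < m) ∧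
          (∀ z, (z ∈ s ∨ z ∈ B) → c < z → m < g z) := by
      by_cases hμ : ∃ μ ∈ M, (∀ z, (z ∈ s ∨ z ∈ B) → z < c → z < μ) ∧
        (∀ z, (z ∈ s ∨ z ∈ B) → c < z → μ < z)
      · obtain ⟨μ, hμM, hμ1, hμ2⟩ := hμ
        obtain ⟨g, h1, h2, h3⟩ := hB (insert μ s) (by
          intro a ha
          rcases Finset.mem_insert.1 ha with rfl | ha
          · exact hMA hμM
          · exact hs ha)
        have hin : ∀ z, (z ∈ s ∨ z ∈ B) → z ∈ (((insert μ s : Finset V) : Set V) ∪ B) := by
          rintro z (hz | hz)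
          · exact Or.inl (Finset.mem_insert_of_mem hz)
          · exact Or.inr hz
        have hinμ : μ ∈ (((insert μ s : Finset V) : Set V) ∪ B) :=
          Or.inl (Finset.mem_insert_self _ _)
        have hgμ : g μ = μ := h2 μ (Finset.mem_insert_self _ _)
        refine ⟨g, h1, fun a ha => h2 a (Finset.mem_insert_of_mem ha), h3.mono hin, μ, hμM, ?_, ?_⟩
        · intro z hz hzc
          have := h3 (hin z hz) hinμ (hμ1 z hz hzc)
          rwa [hgμ] at this
        · intro z hz hzc
          have := h3 hinμ (hin z hz) (hμ2 z hz hzc)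
          rwa [hgμ] at this
      · obtain ⟨g, h1, h2, h3⟩ := hB s hs
        refine ⟨g, h1, h2, h3, ?_⟩
        rcases hc with hc | hc
        · exact stepL hM hMA hs hcA hc h1 h2 h3 hμ
        · exact stepR hM hMA hs hcA hc h1 h2 h3 hμ
    refine ⟨Function.update g c m, ?_, ?_, ?_⟩
    · rintro b (rfl | hb)
      · rw [Function.update_self]
        exact hm
      · have hne : b ≠ c := by
          rintro rfl
          exact hcB hb
        rw [Function.update_of_ne hne]
        exact h1 b hb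
    · intro a ha
      have hne : a ≠ c := by
        rintro rfl
        exact hcs ha
      rw [Function.update_of_ne hne]
      exact h2 a ha
    · have hcase : ∀ z, z ∈ ((s : Set V) ∪ insert c (B : Set V)) → z = c ∨ (z ∈ s ∨ z ∈ B) := by
        rintro z (hz | rfl | hz)
        · exact Or.inr (Or.inl hz)
        · exact Or.inl rfl
        · exact Or.inr (Or.inr hz)
      intro y hy z hz hyz
      rcases hcase y hy with rfl | hy'
      · have hzc : z ≠ y := hyz.ne'
        rw [Function.update_self, Function.update_of_ne hzc]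
        exact h5 z ((hcase z hz).resolve_left hzc) hyz
      · rcases hcase z hz with rfl | hz'
        · rw [Function.update_self, Function.update_of_ne hyz.ne]
          exact h4 y hy' hyz
        · have hyc : y ≠ c := by
            rintro rfl
            exact hy'.elim hcs hcB
          have hzc : z ≠ c := by
            rintro rfl
            exact hz'.elim hcs hcB
          rw [Function.update_of_ne hyc, Function.update_of_ne hzc]
          exact h3 hy' hz' hyz

theorem fs2_of_good {M A : Set V} (hM : DM M) (hMA : M ⊆ A) (B : Finset V)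
    (hB : ∀ b ∈ B, Good M A b) : FS2 M A (B : Set V) := by
  classical
  induction B using Finset.induction_on with
  | empty =>
    intro s _
    refine ⟨id, by simp, fun _ _ => rfl, ?_⟩
    intro a _ b _ hab
    exact hab
  | insert c B hc ih =>
    rw [Finset.coe_insert]
    exact fs2_step hM hMA (ih fun b hb => hB b (Finset.mem_insert_of_mem hb))
      (hB c (Finset.mem_insert_self _ _))

end pure

section logic

variable {U : Type w} [LinearOrder U] [Language.order.Structure U]
  [Language.order.OrderedStructure U]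

/-- the formula `a_i < x < a'_j` for all `i`, `j` -/
noncomputable def cutF (κ κ' : Type) [Finite κ] [Finite κ'] : Language.order.Formula (Fin 1 ⊕ (κ ⊕ κ')) :=
  (Formula.iInf fun i : κ => (Relations.formula₂ (leSymb : Language.order.Relations 2)
      (Term.var (Sum.inl 0)) (Term.var (Sum.inr (Sum.inl i)))).not) ⊓
  (Formula.iInf fun i : κ' => (Relations.formula₂ (leSymb : Language.order.Relations 2)
      (Term.var (Sum.inr (Sum.inr i))) (Term.var (Sum.inl 0))).not)

theorem realize_cutF {κ κ' : Type} [Finite κ] [Finite κ'] (x : Fin 1 → U) (a : κ ⊕ κ' → U) :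
    (cutF κ κ').Realize (Sum.elim x a) ↔
      (∀ i, a (Sum.inl i) < x 0) ∧ ∀ i, x 0 < a (Sum.inr i) := by
  unfold cutF
  rw [Formula.realize_inf, Formula.realize_iInf, Formula.realize_iInf]
  refine and_congr (forall_congr' fun i => ?_) (forall_congr' fun i => ?_)
  · rw [Formula.realize_not, Formula.realize_rel₂, relMap_leSymb]
    simp
  · rw [Formula.realize_not, Formula.realize_rel₂, relMap_leSymb]
    simp

theorem good_of_fs [Nonempty U] {M A B : Set U} (hMA : M ⊆ A)
    (h : FS Language.order M B A) {b : U} (hb : b ∈ B) : Good M A b := by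
  classical
  by_cases hbA : b ∈ A
  · obtain ⟨m, hm, hr⟩ := h (Fin 1) (Fin 1)
      ((Term.var (Sum.inl 0)).equal (Term.var (Sum.inr 0))) (fun _ => b) (fun _ => b)
      (fun _ => hb) (fun _ => hbA) (by rw [Formula.realize_equal]; rfl)
    rw [Formula.realize_equal] at hr
    have : m 0 = b := hr
    exact Or.inl (this ▸ hm 0)
  · by_cases hbM : b ∈ M
    · exact Or.inl hbM
    refine Or.inr ⟨hbA, ?_⟩
    by_contra hcon
    push Not at hcon
    obtain ⟨hL, hR⟩ := hcon
    unfold FromL at hL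
    unfold FromR at hR
    push Not at hL hR
    obtain ⟨s, hs, hsb, hs'⟩ := hL
    obtain ⟨t, ht, htb, ht'⟩ := hR
    obtain ⟨m, hm, hr⟩ := h (Fin 1) (Fin s.card ⊕ Fin t.card) (cutF _ _) (fun _ => b)
      (Sum.elim (fun i => (s.equivFin.symm i : U)) (fun i => (t.equivFin.symm i : U)))
      (fun _ => hb) (by
        rintro (i | i)
        · exact hs (s.equivFin.symm i).2
        · exact ht (t.equivFin.symm i).2) (by
        rw [realize_cutF]
        exact ⟨fun i => hsb _ (s.equivFin.symm i).2, fun i => htb _ (t.equivFin.symm i).2⟩)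
    rw [realize_cutF] at hr
    have h1 : ∀ a ∈ s, a < m 0 := fun a ha => by
      have := hr.1 (s.equivFin ⟨a, ha⟩)
      simpa using this
    have h2 : ∀ a ∈ t, m 0 < a := fun a ha => by
      have := hr.2 (t.equivFin ⟨a, ha⟩)
      simpa using this
    rcases lt_trichotomy (m 0) b with h3 | h3 | h3
    · obtain ⟨a, ha, ha'⟩ := hs' (m 0) (hm 0) h3
      exact absurd (h1 a ha) (not_lt.2 ha')
    · exact hbM (h3 ▸ hm 0)
    · obtain ⟨a, ha, ha'⟩ := ht' (m 0) (hm 0) h3
      exact absurd (h2 a ha) (not_lt.2 ha')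

variable [DenselyOrdered U] [NoMinOrder U] [NoMaxOrder U]

theorem extend {β : Type*} [Finite β] {x x' : β → U} (h : ∀ i j, x i ≤ x j ↔ x' i ≤ x' j) (y : U) :
    ∃ y' : U, ∀ i, (x i ≤ y ↔ x' i ≤ y') ∧ (y ≤ x i ↔ y' ≤ x' i) := by
  classical
  haveI := Fintype.ofFinite β
  haveI : Nonempty U := ⟨y⟩
  by_cases he : ∃ i, x i = y
  · obtain ⟨i, rfl⟩ := he
    exact ⟨x' i, fun j => ⟨h j i, h i j⟩⟩
  · push Not at he
    obtain ⟨m, hm1, hm2⟩ := Order.exists_between_finsets
      ((Finset.univ.filter fun i => x i < y).image x')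
      ((Finset.univ.filter fun i => y < x i).image x') (by
        intro a ha b hb
        obtain ⟨i, hi, rfl⟩ := Finset.mem_image.1 ha
        obtain ⟨j, hj, rfl⟩ := Finset.mem_image.1 hb
        rw [Finset.mem_filter] at hi hj
        have h1 : x i < x j := hi.2.trans hj.2
        rw [← not_le] at h1 ⊢
        rw [← h]
        exact h1)
    refine ⟨m, fun i => ?_⟩
    rcases lt_or_gt_of_ne (he i) with h1 | h1
    · have h2 : x' i < m := hm1 _ (Finset.mem_image_of_mem _ (by simp [h1]))
      exact ⟨⟨fun _ => h2.le, fun _ => h1.le⟩, ⟨fun h3 => absurd h1 (not_lt.2 h3),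
        fun h3 => absurd h2 (not_lt.2 h3)⟩⟩
    · have h2 : m < x' i := hm2 _ (Finset.mem_image_of_mem _ (by simp [h1]))
      exact ⟨⟨fun h3 => absurd h1 (not_lt.2 h3), fun h3 => absurd h2 (not_lt.2 h3)⟩,
        ⟨fun _ => h2.le, fun _ => h1.le⟩⟩

theorem term_order {α : Type*} (t : Language.order.Term α) : ∃ i, t = Term.var i := by
  cases t with
  | var i => exact ⟨i, rfl⟩
  | func f _ => exact (f : Empty).elim

theorem qe' {α : Type*} [Finite α] {n : ℕ} (φ : Language.order.BoundedFormula α n) :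
    ∀ (v v' : α → U) (xs xs' : Fin n → U),
      (∀ i j : α ⊕ Fin n, Sum.elim v xs i ≤ Sum.elim v xs j ↔ Sum.elim v' xs' i ≤ Sum.elim v' xs' j) →
      (φ.Realize v xs ↔ φ.Realize v' xs') := by
  induction φ with
  | falsum => intro v v' xs xs' _; exact Iff.rfl
  | equal t1 t2 =>
    intro v v' xs xs' h
    obtain ⟨i, rfl⟩ := term_order t1
    obtain ⟨j, rfl⟩ := term_order t2
    show (Sum.elim v xs i = Sum.elim v xs j) ↔ (Sum.elim v' xs' i = Sum.elim v' xs' j)
    rw [le_antisymm_iff, le_antisymm_iff, h, h]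
  | @rel n l R ts =>
    intro v v' xs xs' h
    cases R with
    | le =>
      obtain ⟨i, hi⟩ := term_order (ts 0)
      obtain ⟨j, hj⟩ := term_order (ts 1)
      have key : ∀ (v : α → U) (xs : Fin n → U),
          (BoundedFormula.rel (leSymb : Language.order.Relations 2) ts).Realize v xs ↔
            Sum.elim v xs i ≤ Sum.elim v xs j := by
        intro v xs
        have e : (fun k => (ts k).realize (Sum.elim v xs)) =
            ![Sum.elim v xs i, Sum.elim v xs j] := by
          funext k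
          refine Fin.cases ?_ (fun k => ?_) k
          · rw [hi]; rfl
          · have : k = 0 := Subsingleton.elim _ _
            subst this
            show (ts 1).realize _ = _
            rw [hj]
            rfl
        show Structure.RelMap (leSymb : Language.order.Relations 2)
          (fun k => (ts k).realize (Sum.elim v xs)) ↔ _
        rw [e]
        exact relMap_leSymb _
      exact (key v xs).trans ((h i j).trans (key v' xs').symm)
  | imp f1 f2 ih1 ih2 =>
    intro v v' xs xs' h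
    rw [BoundedFormula.realize_imp, BoundedFormula.realize_imp, ih1 v v' xs xs' h,
      ih2 v v' xs xs' h]
  | @all n f ih =>
    have key : ∀ (v v' : α → U) (xs xs' : Fin n → U),
      (∀ i j : α ⊕ Fin n, Sum.elim v xs i ≤ Sum.elim v xs j ↔ Sum.elim v' xs' i ≤ Sum.elim v' xs' j) →
      (∀ a, f.Realize v (Fin.snoc xs a)) → ∀ a, f.Realize v' (Fin.snoc xs' a) := by
      intro v v' xs xs' h hr a'
      obtain ⟨a, ha⟩ := extend (x := Sum.elim v' xs') (x' := Sum.elim v xs)
        (fun i j => (h i j).symm) a'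
      refine (ih v v' (Fin.snoc xs a) (Fin.snoc xs' a') ?_).1 (hr a)
      have e : ∀ (v : α → U) (xs : Fin n → U) (a : U) (i : α ⊕ Fin (n + 1)),
          (∃ k : α ⊕ Fin n, ∀ (v : α → U) (xs : Fin n → U) (a : U),
            (Sum.elim v (Fin.snoc xs a : Fin (n + 1) → U) : α ⊕ Fin (n + 1) → U) i =
              Sum.elim v xs k) ∨
          (∀ (v : α → U) (xs : Fin n → U) (a : U),
            (Sum.elim v (Fin.snoc xs a : Fin (n + 1) → U) : α ⊕ Fin (n + 1) → U) i = a) := by
        intro v xs a i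
        rcases i with i | i
        · exact Or.inl ⟨Sum.inl i, fun _ _ _ => rfl⟩
        · refine Fin.lastCases ?_ (fun k => ?_) i
          · right
            intro v xs a
            simp
          · left
            refine ⟨Sum.inr k, fun v xs a => ?_⟩
            simp
      intro i j
      rcases e v xs a i with ⟨k, hk⟩ | hk <;> rcases e v xs a j with ⟨l, hl⟩ | hl
      · rw [hk, hk, hl, hl]
        exact h k l
      · rw [hk, hk, hl, hl]
        exact (ha k).1.symm
      · rw [hk, hk, hl, hl]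
        exact (ha l).2.symm
      · rw [hk, hk, hl, hl]
        simp
    intro v v' xs xs' h
    rw [BoundedFormula.realize_all, BoundedFormula.realize_all]
    exact ⟨key v v' xs xs' h, key v' v xs' xs (fun i j => (h i j).symm)⟩

theorem qe {α : Type*} [Finite α] (φ : Language.order.Formula α) (v v' : α → U)
    (h : ∀ i j, v i ≤ v j ↔ v' i ≤ v' j) : φ.Realize v ↔ φ.Realize v' := by
  refine qe' φ v v' default default ?_
  rintro (i | i) (j | j)
  · exact h i j
  · exact j.elim0
  · exact i.elim0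
  · exact i.elim0

theorem fs_of_good {M A B : Set U} (hM : DM M) (hMA : M ⊆ A)
    (hB : ∀ b ∈ B, Good M A b) : FS Language.order M B A := by
  classical
  intro ι κ _ _ φ b a hb ha hr
  haveI := Fintype.ofFinite ι
  haveI := Fintype.ofFinite κ
  obtain ⟨g, h1, h2, h3⟩ := fs2_of_good hM hMA (Finset.univ.image b) (by
    intro z hz
    obtain ⟨i, -, rfl⟩ := Finset.mem_image.1 hz
    exact hB _ (hb i)) (Finset.univ.image a) (by
    intro z hz
    obtain ⟨i, -, rfl⟩ := Finset.mem_image.1 (Finset.mem_coe.1 hz)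
    exact ha i)
  have hbm : ∀ i, b i ∈ Finset.univ.image b := fun i => Finset.mem_image_of_mem _ (Finset.mem_univ i)
  have ham : ∀ i, a i ∈ Finset.univ.image a := fun i => Finset.mem_image_of_mem _ (Finset.mem_univ i)
  refine ⟨fun i => g (b i), fun i => h1 _ (hbm i), ?_⟩
  have e : (Sum.elim (fun i => g (b i)) a : ι ⊕ κ → U) = fun z => g (Sum.elim b a z) := by
    funext z
    cases z with
    | inl i => rfl
    | inr i => exact (h2 _ (ham i)).symm
  rw [e]
  refine (qe φ _ _ fun i j => ?_).1 hr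
  have hin : ∀ z : ι ⊕ κ, Sum.elim b a z ∈ (((Finset.univ.image a : Finset U) : Set U) ∪
      ((Finset.univ.image b : Finset U) : Set U)) := by
    rintro (i | i)
    · exact Or.inr (hbm i)
    · exact Or.inl (ham i)
  exact (h3.le_iff_le (hin i) (hin j)).symm

theorem dm_sub [Nonempty U] (M : Language.order.ElementarySubstructure U) : DM (M : Set U) := by
  classical
  intro lo hi hlo hhi hlt
  obtain ⟨y, hy1, hy2⟩ := Order.exists_between_finsets lo hi hlt
  obtain ⟨m, hm, hr⟩ := exists_in M (cutF (Fin lo.card) (Fin hi.card))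
    (Sum.elim (fun i => (lo.equivFin.symm i : U)) (fun i => (hi.equivFin.symm i : U))) (by
      rintro (i | i)
      · exact hlo (lo.equivFin.symm i).2
      · exact hhi (hi.equivFin.symm i).2) (fun _ => y) (by
      rw [realize_cutF]
      exact ⟨fun i => hy1 _ (lo.equivFin.symm i).2, fun i => hy2 _ (hi.equivFin.symm i).2⟩)
  rw [realize_cutF] at hr
  refine ⟨m 0, hm 0, fun x hx => ?_, fun x hx => ?_⟩
  · have := hr.1 (lo.equivFin ⟨x, hx⟩)
    simpa using this
  · have := hr.2 (hi.equivFin ⟨x, hx⟩)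
    simpa using this

theorem dichotomy_order [Nonempty U] : FSDichotomy Language.order U := by
  classical
  intro M A B hA hB c h
  have hMA : (M : Set U) ⊆ (M : Set U) ∪ A := Set.subset_union_left
  have hg : ∀ b ∈ B, Good (M : Set U) (M ∪ A) b := fun b hb => good_of_fs hMA h hb
  by_cases hc : Good (M : Set U) (M ∪ A) c
  · right
    refine fs_of_good (dm_sub M) hMA ?_
    rintro b (hb | hb)
    · exact hg b hb
    · rw [Set.mem_singleton_iff.1 hb]
      exact hc
  · left
    have e : ((M : Set U) ∪ A ∪ {c}) = insert c ((M : Set U) ∪ A) := by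
      rw [Set.union_singleton]
    rw [e]
    exact fs_of_good (dm_sub M) (hMA.trans (Set.subset_insert _ _))
      fun b hb => good_dich hMA (hg b hb) hc

end logic

theorem dichotomy_dlo (U : Type w) [Language.order.Structure U] [Nonempty U]
    [Theory.Model U Language.order.dlo] : FSDichotomy Language.order U := by
  classical
  let := Language.order.linearOrderOfModels U
  have := Language.order.denselyOrdered_of_dlo U
  have := Language.order.noBotOrder_of_dlo U
  have := Language.order.noTopOrder_of_dlo U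
  have := NoBotOrder.to_noMinOrder U
  have := NoTopOrder.to_noMaxOrder U
  exact dichotomy_order

end Pool.Agent.helper86.FM
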