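import Pool.Agent.helper86.FM.Coheir

set_option autoImplicit false

/-!
# Realizations of `p|N ∪ q|M'`, and the distribution of the elements `y_j`
-/

open FirstOrder FirstOrder.Language Cardinal Filter

namespace Pool.Agent.helper86.FM

universe u v w u' v' w'

variable {L : FirstOrder.Language.{u, v}} {U : Type w} [L.Structure U]

section reduct

variable {K : FirstOrder.Language.{u', v'}} [K.Structure U]

theorem red_elem (F : K →ᴸ L) [F.IsExpansionOn U] (M : L.ElementarySubstructure U) :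
    (F.substructureReduct M.toSubstructure : K.Substructure U).IsElementary := by
  apply Substructure.isElementary_of_exists
  intro n φ x a h
  let φ' : L.Formula (Fin n ⊕ Fin 1) := F.onFormula
    ((BoundedFormula.toFormula φ).relabel (fun z => match z with
      | Sum.inl e => e.elim
      | Sum.inr i => (Fin.lastCases (Sum.inr 0) (fun j => Sum.inl j) i : Fin n ⊕ Fin 1)))
  have key : ∀ c : U, φ'.Realize (Sum.elim (fun i => ((x i : _) : U)) (fun _ => c)) ↔
      φ.Realize default (Fin.snoc ((↑) ∘ x) c : _ → U) := by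
    intro c
    rw [LHom.realize_onFormula, Formula.realize_relabel, BoundedFormula.realize_toFormula]
    have e1 : ((Sum.elim (fun i => ((x i : _) : U)) (fun _ => c) : Fin n ⊕ Fin 1 → U) ∘
        (fun z : Empty ⊕ Fin (n + 1) => match z with
      | Sum.inl e => (e.elim : Fin n ⊕ Fin 1)
      | Sum.inr i => (Fin.lastCases (Sum.inr 0) (fun j => Sum.inl j) i : Fin n ⊕ Fin 1))) ∘ Sum.inr
        = (Fin.snoc ((↑) ∘ x) c : Fin (n + 1) → U) := by
      funext i
      refine Fin.lastCases ?_ (fun j => ?_) i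
      · simp
      · simp
    rw [e1]
    apply iff_of_eq
    congr 1
    exact Subsingleton.elim _ _
  have h1 := (key a).2 h
  obtain ⟨y, hy, hy'⟩ := exists_in M (φ'.relabel Sum.swap) (fun i => ((x i : _) : U))
    (fun i => (x i).2) (fun _ : Fin 1 => a) (by
      rw [Formula.realize_relabel]
      exact realize_congr' h1 (by rintro (i | i) <;> rfl))
  refine ⟨⟨y 0, hy 0⟩, (key (y 0)).1 ?_⟩
  rw [Formula.realize_relabel] at hy'
  refine realize_congr' hy' ?_
  rintro (i | i)
  · rfl
  · have : i = 0 := Subsingleton.elim _ _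
    subst this
    rfl

/-- `M` as an elementary substructure for the smaller language -/
def red (F : K →ᴸ L) [F.IsExpansionOn U] (M : L.ElementarySubstructure U) :
    K.ElementarySubstructure U :=
  ⟨F.substructureReduct M.toSubstructure, red_elem F M⟩

theorem coe_red (F : K →ᴸ L) [F.IsExpansionOn U] (M : L.ElementarySubstructure U) :
    ((red F M : K.ElementarySubstructure U) : Set U) = (M : Set U) := rfl

end reduct

variable {n : ℕ}

theorem exists_x {M M' N N' : L.ElementarySubstructure U} (hF : Frame M M' N N')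
    {p q : GType L U n} (h : IsImage M M' N p q) :
    ∃ x : Fin n → U,
      (∀ (κ : Type) [Finite κ] (ψ : L.Formula (Fin n ⊕ κ)) (c : κ → U), (∀ i, c i ∈ M') →
        (ψ.Realize (Sum.elim x c) ↔ q.Holds ψ c)) ∧
      (∀ (κ : Type) [Finite κ] (ψ : L.Formula (Fin n ⊕ κ)) (c : κ → U), (∀ i, c i ∈ N) →
        (ψ.Realize (Sum.elim x c) ↔ p.Holds ψ c)) := by
  classical
  let A : Set U := (N' : Set U)
  let i1 : M' → A := fun c => ⟨c, hF.le2 c.2⟩
  let i2 : N → A := fun c => ⟨c, hF.le3 c.2⟩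
  let Γ : Set (L.Formula (Fin n ⊕ A)) := {φ |
    (∃ ψ : L.Formula (Fin n ⊕ M'), φ = ψ.relabel (Sum.map id i1) ∧
      q.mem (ψ.relabel (Sum.map id (fun c : M' => (c : U))))) ∨
    (∃ χ : L.Formula (Fin n ⊕ N), φ = χ.relabel (Sum.map id i2) ∧
      p.mem (χ.relabel (Sum.map id (fun c : N => (c : U)))))}
  have hcard : #A ≤ max ℵ₀ #N' := le_max_right _ _
  obtain ⟨x, hx⟩ := hF.sat3 A hcard (Fin n) Γ (by
    intro s hs
    have h1 : ∀ φ : s, ∃ χ : L.Formula (Fin n ⊕ N),
        p.mem (χ.relabel (Sum.map id (fun c : N => (c : U)))) ∧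
        ∀ x : Fin n → U, (∀ i, x i ∈ N) → χ.Realize (Sum.elim x (fun c => (c : U))) →
          (φ : L.Formula (Fin n ⊕ A)).Realize (Sum.elim x (fun c => (c : U))) := by
      rintro ⟨φ, hφ⟩
      rcases hs hφ with ⟨ψ, rfl, hψ⟩ | ⟨χ, rfl, hχ⟩
      · obtain ⟨χ, hχ, hχ'⟩ := h.2 ψ hψ
        refine ⟨χ, hχ, fun x hx hr => ?_⟩
        rw [Formula.realize_relabel]
        exact realize_congr' (hχ' x hx hr) (by rintro (i | i) <;> rfl)
      · refine ⟨χ, hχ, fun x hx hr => ?_⟩
        rw [Formula.realize_relabel]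
        exact realize_congr' hr (by rintro (i | i) <;> rfl)
    choose χ hχ hχ' using h1
    obtain ⟨x0, hx0⟩ := p.sat (Finset.univ.image
      (fun φ : s => (χ φ).relabel (Sum.map id (fun c : N => (c : U))))) (by
        intro θ hθ
        obtain ⟨φ, -, rfl⟩ := Finset.mem_image.1 hθ
        exact hχ φ)
    obtain ⟨x, hxN, hx⟩ := exists_in N (Formula.iInf χ) (fun c : N => (c : U)) (fun c => c.2) x0 (by
      rw [Formula.realize_iInf]
      intro φ
      have h2 := hx0 _ (Finset.mem_image_of_mem _ (Finset.mem_univ φ))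
      rw [Formula.realize_relabel] at h2
      exact realize_congr' h2 (by rintro (i | i) <;> rfl))
    rw [Formula.realize_iInf] at hx
    exact ⟨x, fun φ hφ => hχ' ⟨φ, hφ⟩ x hxN (hx ⟨φ, hφ⟩)⟩)
  have hq : ∀ (κ : Type) [Finite κ] (ψ : L.Formula (Fin n ⊕ κ)) (c : κ → U), (∀ i, c i ∈ M') →
      q.Holds ψ c → ψ.Realize (Sum.elim x c) := by
    intro κ _ ψ c hc hh
    let c' : κ → M' := fun i => ⟨c i, hc i⟩
    have h2 := hx ((ψ.relabel (Sum.map id c')).relabel (Sum.map id i1)) (Or.inl ⟨_, rfl, by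
      refine (q.mem_congr fun z => ?_).1 hh
      rw [Formula.realize_relabel, Formula.realize_relabel, Formula.realize_relabel]
      apply iff_of_eq
      congr 1
      funext i
      cases i <;> rfl⟩)
    rw [Formula.realize_relabel, Formula.realize_relabel] at h2
    exact realize_congr' h2 (by rintro (i | i) <;> rfl)
  have hp : ∀ (κ : Type) [Finite κ] (ψ : L.Formula (Fin n ⊕ κ)) (c : κ → U), (∀ i, c i ∈ N) →
      p.Holds ψ c → ψ.Realize (Sum.elim x c) := by
    intro κ _ ψ c hc hh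
    let c' : κ → N := fun i => ⟨c i, hc i⟩
    have h2 := hx ((ψ.relabel (Sum.map id c')).relabel (Sum.map id i2)) (Or.inr ⟨_, rfl, by
      refine (p.mem_congr fun z => ?_).1 hh
      rw [Formula.realize_relabel, Formula.realize_relabel, Formula.realize_relabel]
      apply iff_of_eq
      congr 1
      funext i
      cases i <;> rfl⟩)
    rw [Formula.realize_relabel, Formula.realize_relabel] at h2
    exact realize_congr' h2 (by rintro (i | i) <;> rfl)
  refine ⟨x, fun κ _ ψ c hc => ⟨fun hr => ?_, hq κ ψ c hc⟩,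
    fun κ _ ψ c hc => ⟨fun hr => ?_, hp κ ψ c hc⟩⟩
  · by_contra hne
    rw [← q.holds_not] at hne
    have h3 := hq κ _ c hc hne
    rw [Formula.realize_not] at h3
    exact h3 hr
  · by_contra hne
    rw [← p.holds_not] at hne
    have h3 := hp κ _ c hc hne
    rw [Formula.realize_not] at h3
    exact h3 hr

/-- a good distribution of the elements `y j`, `j ∈ J0`, for the tuple `b` -/
def Valid (K : FirstOrder.Language.{u', v'}) [K.Structure U] (M M' N : L.ElementarySubstructure U)
    (D : Ultrafilter (U → M)) {J : Type w'} (y : J → U) (J0 : Finset J) {κ : Type} (b : κ → U)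
    (S : Set J) : Prop :=
  ∃ b1 b2 : κ → U, (∀ i, b1 i ∈ N) ∧ (∀ i, b2 i ∈ N) ∧ SameType M b b1 ∧ SameType M b b2 ∧
    (∀ (ν : Type) [Finite ν] (ψ : L.Formula (κ ⊕ ν)) (a : ν → U), (∀ j, a j ∈ M') →
      (ψ.Realize (Sum.elim b2 a) ↔
        ∀ᶠ g in (D : Filter (U → M)), ψ.Realize (Sum.elim (fun i => (g (b i) : U)) a))) ∧
    FS K (M : Set U) (Set.range b2 ∪ y '' {j | j ∈ J0 ∧ j ∈ S})
      ((M' : Set U) ∪ Set.range b1 ∪ y '' {j | j ∈ J0 ∧ j ∉ S})

theorem exists_valid {K : FirstOrder.Language.{u', v'}} [K.Structure U] (F : K →ᴸ L)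
    [F.IsExpansionOn U] (hD : FSDichotomy K U) {M M' N N' : L.ElementarySubstructure U}
    (hF : Frame M M' N N') {D : Ultrafilter (U → M)}
    (hDM : ∀ (κ ν : Type) [Finite κ] [Finite ν] (θ : L.Formula (κ ⊕ ν))
      (b : κ → U) (m : ν → U), (∀ i, m i ∈ M) → θ.Realize (Sum.elim b m) →
      ∀ᶠ g in (D : Filter (U → M)), θ.Realize (Sum.elim (fun i => (g (b i) : U)) m))
    {J : Type w'} (y : J → U) (J0 : Finset J) {κ : Type} [Finite κ] (b : κ → U) :
    ∃ S : Set J, Valid K M M' N D y J0 b S := by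
  classical
  have hDM' : ∀ (ν : Type) [Finite ν] (θ : L.Formula (κ ⊕ ν)) (m : ν → U), (∀ i, m i ∈ M) →
      ((∀ᶠ g in (D : Filter (U → M)), θ.Realize (Sum.elim (fun i => (g (b i) : U)) m)) ↔
        θ.Realize (Sum.elim b m)) := by
    intro ν _ θ m hm
    refine ⟨fun h => ?_, hDM κ ν θ b m hm⟩
    by_contra hne
    have h1 := hDM κ ν θ.not b m hm (by rw [Formula.realize_not]; exact hne)
    obtain ⟨g, hg, hg'⟩ := (h.and h1).exists
    rw [Formula.realize_not] at hg'
    exact hg' hg
  obtain ⟨b1, hb1, hb1'⟩ := coheir_real hF D b (M' : Set U) (fun z hz => hF.le2 hz)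
    (le_max_right _ _)
  have hsub : (M' : Set U) ∪ Set.range b1 ⊆ N' := by
    rintro z (hz | ⟨i, rfl⟩)
    · exact hF.le2 hz
    · exact hF.le3 (hb1 i)
  obtain ⟨b2, hb2, hb2'⟩ := coheir_real hF D b ((M' : Set U) ∪ Set.range b1) hsub (by
    refine (Cardinal.mk_union_le _ _).trans ?_
    refine Cardinal.add_le_of_le (le_max_left _ _) (le_max_right _ _) ?_
    exact (Set.finite_range b1).lt_aleph0.le.trans (le_max_left _ _))
  have hs1 : SameType M b b1 := fun ν _ ψ m hm => by
    rw [hb1' ν ψ m (fun i => hF.le1 (hm i))]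
    exact (hDM' ν ψ m hm).symm
  have hs2 : SameType M b b2 := fun ν _ ψ m hm => by
    rw [hb2' ν ψ m (fun i => Or.inl (hF.le1 (hm i)))]
    exact (hDM' ν ψ m hm).symm
  have hfs : FS K (M : Set U) (Set.range b2) ((M' : Set U) ∪ Set.range b1) := by
    intro ι ν _ _ φ c a hc ha hr
    choose σ hσ using hc
    have h1 : (F.onFormula (φ.relabel (Sum.map σ id))).Realize (Sum.elim b2 a) := by
      rw [LHom.realize_onFormula, Formula.realize_relabel]
      refine realize_congr' hr ?_
      rintro (i | i)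
      · exact (hσ i).symm
      · rfl
    rw [hb2' ν _ a ha] at h1
    obtain ⟨g, hg⟩ := h1.exists
    refine ⟨fun i => g (b (σ i)), fun i => (g (b (σ i))).2, ?_⟩
    rw [LHom.realize_onFormula, Formula.realize_relabel] at hg
    exact realize_congr' hg (by rintro (i | i) <;> rfl)
  obtain ⟨S, hS⟩ := distribute hD (red F M) y (A := (M' : Set U) ∪ Set.range b1)
    (B := Set.range b2) (fun z hz => Or.inl (hF.le1 hz)) (Set.finite_range b2) hfs J0
  exact ⟨S, b1, b2, hb1, hb2, hs1, hs2,
    fun ν _ ψ a ha => hb2' ν ψ a (fun j => Or.inl (ha j)), hS⟩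

theorem Valid.mono {K : FirstOrder.Language.{u', v'}} [K.Structure U]
    {M M' N : L.ElementarySubstructure U} {D : Ultrafilter (U → M)} {J : Type w'} {y : J → U}
    {J0 J1 : Finset J} {κ κ' : Type} {b : κ → U} {S S' : Set J}
    (h : Valid K M M' N D y J0 b S) (hJ : J1 ⊆ J0) (hS : ∀ j ∈ J1, (j ∈ S' ↔ j ∈ S))
    (σ : κ' → κ) : Valid K M M' N D y J1 (b ∘ σ) S' := by
  obtain ⟨b1, b2, h1, h2, h3, h4, h5, h6⟩ := h
  refine ⟨b1 ∘ σ, b2 ∘ σ, fun i => h1 _, fun i => h2 _, h3.comp σ, h4.comp σ,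
    fun ν _ ψ a ha => ?_, h6.mono ?_ ?_⟩
  · have h7 := h5 ν (ψ.relabel (Sum.map σ id)) a ha
    simp only [Formula.realize_relabel] at h7
    have e : ∀ c : κ → U, Sum.elim c a ∘ Sum.map σ id = Sum.elim (c ∘ σ) a := by
      intro c
      funext i
      cases i <;> rfl
    simp only [e] at h7
    exact h7
  · refine Set.union_subset_union ?_ (Set.image_mono fun j hj => ?_)
    · rintro z ⟨i, rfl⟩
      exact ⟨σ i, rfl⟩
    · exact ⟨hJ hj.1, (hS j hj.1).1 hj.2⟩
  · refine Set.union_subset_union (Set.union_subset_union_right _ ?_)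
      (Set.image_mono fun j hj => ?_)
    · rintro z ⟨i, rfl⟩
      exact ⟨σ i, rfl⟩
    · exact ⟨hJ hj.1, fun h => hj.2 ((hS j hj.1).2 h)⟩

/-- one distribution for all finite subsets of `J` and all tuples -/
theorem exists_S {K : FirstOrder.Language.{u', v'}} [K.Structure U] (F : K →ᴸ L)
    [F.IsExpansionOn U] (hD : FSDichotomy K U) {M M' N N' : L.ElementarySubstructure U}
    (hF : Frame M M' N N') {D : Ultrafilter (U → M)}
    (hDM : ∀ (κ ν : Type) [Finite κ] [Finite ν] (θ : L.Formula (κ ⊕ ν))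
      (b : κ → U) (m : ν → U), (∀ i, m i ∈ M) → θ.Realize (Sum.elim b m) →
      ∀ᶠ g in (D : Filter (U → M)), θ.Realize (Sum.elim (fun i => (g (b i) : U)) m))
    {J : Type w'} (y : J → U) :
    ∃ S : Set J, ∀ (J0 : Finset J) (κ : Type) [Finite κ] (b : κ → U),
      Valid K M M' N D y J0 b S := by
  classical
  have h1 : ∀ z : Finset J × Finset U, ∃ S : Set J, Valid K M M' N D y z.1
      (fun i : Fin z.2.card => (z.2.equivFin.symm i : U)) S := fun z =>
    exists_valid F hD hF hDM y z.1 _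
  choose S hS using h1
  let W : Ultrafilter (Finset J × Finset U) := Ultrafilter.of atTop
  refine ⟨{j | ∀ᶠ z in (W : Filter (Finset J × Finset U)), j ∈ S z}, fun J0 κ _ b => ?_⟩
  have hfin : (Set.range b).Finite := Set.finite_range b
  have h2 : ∀ᶠ z in (W : Filter (Finset J × Finset U)), (J0, hfin.toFinset) ≤ z :=
    (Ultrafilter.of_le atTop) (Filter.eventually_ge_atTop _)
  have h3 : ∀ᶠ z in (W : Filter (Finset J × Finset U)), ∀ j ∈ J0,
      ((∀ᶠ z in (W : Filter (Finset J × Finset U)), j ∈ S z) ↔ j ∈ S z) := by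
    rw [Filter.eventually_all_finset]
    intro j _
    by_cases hj : ∀ᶠ z in (W : Filter (Finset J × Finset U)), j ∈ S z
    · filter_upwards [hj] with z hz
      exact ⟨fun _ => hz, fun _ => hj⟩
    · have hj' := Ultrafilter.eventually_not.2 hj
      filter_upwards [hj'] with z hz
      exact ⟨fun h => absurd h hj, fun h => absurd h hz⟩
  obtain ⟨z, hz, hz'⟩ := (h2.and h3).exists
  have hbz : ∀ i, b i ∈ z.2 := fun i => hz.2 (by simp)
  have h4 := (hS z).mono (J1 := J0) hz.1 (S' := {j | ∀ᶠ z in (W : Filter (Finset J × Finset U)),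
    j ∈ S z}) (fun j hj => hz' j hj) (fun i : κ => z.2.equivFin ⟨b i, hbz i⟩)
  have e : (fun i : Fin z.2.card => (z.2.equivFin.symm i : U)) ∘
      (fun i : κ => z.2.equivFin ⟨b i, hbz i⟩) = b := by
    funext i
    simp
  rw [e] at h4
  exact h4

end Pool.Agent.helper86.FM
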